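import Pool.Agent.Hhelper65.B4.Zero

/-!
# Part B4, step 1: the commutative ring of multipliers
-/

set_option linter.unusedSectionVars false
set_option linter.unusedVariables false

namespace Pool.Agent.Hhelper65.B4

open Pool.Agent.Hhelper8

variable {F G : Type*} [Field F] [CharZero F] [NonUnitalNonAssocRing G] [Module F G]
  [IsScalarTower F G G] [SMulCommClass F G G]

/-- the properties of the multiplier ring -/
structure GS (pr : G →ₗ[F] G →ₗ[F] G →ₗ[F] G) (Γ : Type*) [CommRing Γ] [Algebra F Γ]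
    [Module Γ (Gs F G)] where
  th : G → G → Γ
  th_smul : ∀ x y (w : Gs F G), ((th x y • w : Gs F G) : G) = thf pr x y w
  faithful : ∀ γ : Γ, (∀ m : Gs F G, γ • m = 0) → γ = 0
  mul_right : ∀ (γ : Γ) (m m' : Gs F G) (x : G), (m' : G) = m * x →
    ((γ • m' : Gs F G) : G) = ((γ • m : Gs F G) : G) * x
  br : ∀ (γ : Γ) (m m' : Gs F G) (c x : G), (m' : G) = pr m c x →
    ((γ • m' : Gs F G) : G) = pr (γ • m : Gs F G) c x
  F_smul : ∀ (c : F) (m : Gs F G), algebraMap F Γ c • m = c • m

section construct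

variable (hG : VIds G) (pr : G →ₗ[F] G →ₗ[F] G →ₗ[F] G)
  (hpr : ∀ a b c x : G, (6 : F) • pr (a * b) c x = P6 a b c x)

/-- right multiplication -/
def R0 (x : G) : Module.End F (Gs F G) where
  toFun m := ⟨(m : G) * x, mul_mem_Gs _ _⟩
  map_add' m n := Subtype.ext (add_mul _ _ _)
  map_smul' r m := Subtype.ext (smul_mul_assoc _ _ _)

/-- the bracket -/
def Br0 (c x : G) : Module.End F (Gs F G) where
  toFun m := ⟨pr m c x, pr_mem hG pr hpr m.2 c x⟩
  map_add' m n := Subtype.ext (by simp)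
  map_smul' r m := Subtype.ext (by simp)

/-- the map `θ(x,y)` -/
def Th0 (x y : G) : Module.End F (Gs F G) where
  toFun m := ⟨thf pr x y m, thf_mem hG pr hpr m.2 x y⟩
  map_add' m n := Subtype.ext (thf_add pr x y _ _)
  map_smul' r m := Subtype.ext (thf_smul pr x y _ _)

lemma Th0_apply (x y : G) (m : Gs F G) : Th0 hG pr hpr x y m = -(R0 y (R0 x m)) - R0 (x * y) m +
    (2 : F) • Br0 hG pr hpr y x m - Br0 hG pr hpr x y m := rfl

/-- the commutant of the operators -/
def Cs : Subalgebra F (Module.End F (Gs F G)) :=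
  Subalgebra.centralizer F (Set.range (R0 : G → Module.End F (Gs F G)) ∪
    {T | ∃ c x, T = Br0 hG pr hpr c x})

/-- the multiplier ring -/
def Gams : Subalgebra F (Module.End F (Gs F G)) :=
  Cs hG pr hpr ⊓ Subalgebra.centralizer F (Cs hG pr hpr : Set (Module.End F (Gs F G)))

lemma mem_Cs {T : Module.End F (Gs F G)} (h1 : ∀ x, R0 x * T = T * R0 x)
    (h2 : ∀ c x, Br0 hG pr hpr c x * T = T * Br0 hG pr hpr c x) : T ∈ Cs hG pr hpr := by
  unfold Cs
  rw [Subalgebra.mem_centralizer_iff]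
  rintro g (⟨x, rfl⟩ | ⟨c, x, rfl⟩)
  · exact h1 x
  · exact h2 c x

lemma Cs_R {T : Module.End F (Gs F G)} (hT : T ∈ Cs hG pr hpr) (x : G) :
    R0 x * T = T * R0 x := by
  unfold Cs at hT
  rw [Subalgebra.mem_centralizer_iff] at hT
  exact hT _ (Or.inl ⟨x, rfl⟩)

lemma Cs_Br {T : Module.End F (Gs F G)} (hT : T ∈ Cs hG pr hpr) (c x : G) :
    Br0 hG pr hpr c x * T = T * Br0 hG pr hpr c x := by
  unfold Cs at hT
  rw [Subalgebra.mem_centralizer_iff] at hT
  exact hT _ (Or.inr ⟨c, x, rfl⟩)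

lemma Th0_mem_Cs (x y : G) : Th0 hG pr hpr x y ∈ Cs hG pr hpr := by
  apply mem_Cs
  · intro z
    ext m
    exact (thf_mul hG pr hpr m.2 x y z).symm
  · intro t z
    ext m
    exact (thf_pr hG pr hpr m.2 x y t z).symm

lemma Th0_mem (x y : G) : Th0 hG pr hpr x y ∈ Gams hG pr hpr := by
  refine ⟨Th0_mem_Cs hG pr hpr x y, ?_⟩
  show Th0 hG pr hpr x y ∈ Subalgebra.centralizer F _
  rw [Subalgebra.mem_centralizer_iff]
  intro T hT
  have h1 : ∀ x m, T (R0 x m) = R0 x (T m) := fun x m =>
    (LinearMap.congr_fun (Cs_R hG pr hpr hT x) m).symm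
  have h2 : ∀ c x m, T (Br0 hG pr hpr c x m) = Br0 hG pr hpr c x (T m) := fun c x m =>
    (LinearMap.congr_fun (Cs_Br hG pr hpr hT c x) m).symm
  refine LinearMap.ext (fun m => ?_)
  show T (Th0 hG pr hpr x y m) = Th0 hG pr hpr x y (T m)
  rw [Th0_apply, Th0_apply, map_sub, map_add, map_sub, map_neg, map_smul, h1, h1, h1, h2, h2]

/-- the multiplier ring as a type -/
def Gam : Type _ := ↥(Gams hG pr hpr)

instance : Ring (Gam hG pr hpr) := inferInstanceAs (Ring ↥(Gams hG pr hpr))

instance : CommRing (Gam hG pr hpr) :=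
  { (inferInstance : Ring (Gam hG pr hpr)) with
    mul_comm := by
      intro a b
      apply Subtype.ext
      have h := b.2.2
      have h' : b.1 ∈ Subalgebra.centralizer F
        (Cs hG pr hpr : Set (Module.End F (Gs F G))) := h
      rw [Subalgebra.mem_centralizer_iff] at h'
      exact h' a.1 a.2.1 }

instance : Algebra F (Gam hG pr hpr) := inferInstanceAs (Algebra F ↥(Gams hG pr hpr))

instance : Module (Gam hG pr hpr) (Gs F G) where
  smul γ m := γ.1 m
  one_smul m := rfl
  mul_smul a b m := rfl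
  smul_zero γ := map_zero γ.1
  smul_add γ m n := map_add γ.1 m n
  add_smul a b m := rfl
  zero_smul m := rfl

/-- the structure on the multiplier ring -/
def gs : GS pr (Gam hG pr hpr) where
  th x y := ⟨Th0 hG pr hpr x y, Th0_mem hG pr hpr x y⟩
  th_smul x y w := rfl
  faithful γ h := Subtype.ext (LinearMap.ext h)
  mul_right γ m m' x h := by
    have e : m' = R0 x m := Subtype.ext h
    rw [e]
    have := LinearMap.congr_fun (Cs_R hG pr hpr γ.2.1 x) m
    exact (congrArg Subtype.val this).symm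
  br γ m m' c x h := by
    have e : m' = Br0 hG pr hpr c x m := Subtype.ext h
    rw [e]
    have := LinearMap.congr_fun (Cs_Br hG pr hpr γ.2.1 c x) m
    exact (congrArg Subtype.val this).symm
  F_smul c m := rfl

end construct

end Pool.Agent.Hhelper65.B4
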