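import Mathlib

/-!
# Maps which extend to a module spanned by a family
-/

namespace Pool.Agent.Hhelper65.B4

section LX

variable {Γ : Type*} [CommRing Γ] {N : Type*} [AddCommGroup N] [Module Γ N] {G : Type*}

/-- `t : G → W` extends to a linear map of the module `N` in which `G` is mapped by `La`. -/
def LX (Γ : Type*) [CommRing Γ] {N : Type*} [AddCommGroup N] [Module Γ N] {G : Type*} (La : G → N)
    {W : Type*} [AddCommGroup W] [Module Γ W] (t : G → W) : Prop :=
  ∃ T : N →ₗ[Γ] W, ∀ a, T (La a) = t a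

variable {La : G → N} {W W' : Type*} [AddCommGroup W] [Module Γ W] [AddCommGroup W'] [Module Γ W']

lemma LX.congr {t t' : G → W} (h : LX Γ La t) (he : ∀ a, t a = t' a) : LX Γ La t' := by
  obtain ⟨T, hT⟩ := h
  exact ⟨T, fun a => (hT a).trans (he a)⟩

lemma LX.add {t t' : G → W} (h : LX Γ La t) (h' : LX Γ La t') : LX Γ La (fun a => t a + t' a) := by
  obtain ⟨T, hT⟩ := h
  obtain ⟨T', hT'⟩ := h'
  exact ⟨T + T', fun a => by rw [LinearMap.add_apply, hT, hT']⟩

lemma LX.neg {t : G → W} (h : LX Γ La t) : LX Γ La (fun a => -t a) := by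
  obtain ⟨T, hT⟩ := h
  exact ⟨-T, fun a => by rw [LinearMap.neg_apply, hT]⟩

lemma LX.sub {t t' : G → W} (h : LX Γ La t) (h' : LX Γ La t') : LX Γ La (fun a => t a - t' a) := by
  obtain ⟨T, hT⟩ := h
  obtain ⟨T', hT'⟩ := h'
  exact ⟨T - T', fun a => by rw [LinearMap.sub_apply, hT, hT']⟩

lemma LX.zero : LX Γ La (fun _ => (0 : W)) := ⟨0, fun _ => rfl⟩

lemma LX.smul {t : G → W} (h : LX Γ La t) (γ : Γ) : LX Γ La (fun a => γ • t a) := by
  obtain ⟨T, hT⟩ := h
  exact ⟨γ • T, fun a => by rw [LinearMap.smul_apply, hT]⟩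

lemma LX.comp {t : G → W} (h : LX Γ La t) (D : W →ₗ[Γ] W') : LX Γ La (fun a => D (t a)) := by
  obtain ⟨T, hT⟩ := h
  exact ⟨D ∘ₗ T, fun a => by rw [LinearMap.comp_apply, hT]⟩

lemma LX.pi {ι : Type*} {t : G → (ι → W)} (h : ∀ i, LX Γ La (fun a => t a i)) : LX Γ La t := by
  choose T hT using h
  exact ⟨LinearMap.pi T, fun a => by
    funext i
    rw [LinearMap.pi_apply, hT]⟩

lemma LX.prod {t : G → W} {t' : G → W'} (h : LX Γ La t) (h' : LX Γ La t') :
    LX Γ La (fun a => (t a, t' a)) := by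
  obtain ⟨T, hT⟩ := h
  obtain ⟨T', hT'⟩ := h'
  exact ⟨T.prod T', fun a => by
    show (T (La a), T' (La a)) = _
    rw [hT, hT']⟩

lemma LX.of_inj (hLa : Submodule.span Γ (Set.range La) = ⊤) {t : G → W} (j : W →ₗ[Γ] W')
    (hj : Function.Injective j) (h : LX Γ La (fun a => j (t a))) : LX Γ La t := by
  obtain ⟨T, hT⟩ := h
  have hrange : ∀ n, T n ∈ LinearMap.range j := by
    intro n
    have hn : n ∈ Submodule.span Γ (Set.range La) := by rw [hLa]; trivial
    induction hn using Submodule.span_induction with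
    | mem y hy =>
      obtain ⟨a, rfl⟩ := hy
      rw [hT]
      exact ⟨t a, rfl⟩
    | zero => rw [map_zero]; exact zero_mem _
    | add x y _ _ hx hy => rw [map_add]; exact add_mem hx hy
    | smul r x _ hx => rw [map_smul]; exact Submodule.smul_mem _ _ hx
  refine ⟨(LinearEquiv.ofInjective j hj).symm.toLinearMap ∘ₗ (T.codRestrict (LinearMap.range j)
    hrange), fun a => ?_⟩
  rw [LinearMap.comp_apply]
  show (LinearEquiv.ofInjective j hj).symm _ = t a
  rw [LinearEquiv.symm_apply_eq]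
  apply Subtype.ext
  rw [LinearMap.codRestrict_apply, hT]
  rfl

lemma ext_La (hLa : Submodule.span Γ (Set.range La) = ⊤) {T T' : N →ₗ[Γ] W}
    (h : ∀ a, T (La a) = T' (La a)) : T = T' :=
  LinearMap.ext_on_range hLa h

/-- bilinear extension -/
lemma LX.two (hLa : Submodule.span Γ (Set.range La) = ⊤) {β : G → G → W}
    (h1 : ∀ b, LX Γ La (fun a => β a b)) (h2 : ∀ a, LX Γ La (fun b => β a b)) :
    ∃ μ : N →ₗ[Γ] N →ₗ[Γ] W, ∀ a b, μ (La a) (La b) = β a b := by
  choose T hT using h1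
  -- `j : Hom(N,W) → (G → W)`
  let j : (N →ₗ[Γ] W) →ₗ[Γ] (G → W) :=
    { toFun := fun S a => S (La a)
      map_add' := fun _ _ => rfl
      map_smul' := fun _ _ => rfl }
  have hj : Function.Injective j := by
    intro S S' h
    exact ext_La hLa (fun a => congrFun h a)
  have h3 : LX Γ La T := by
    apply LX.of_inj hLa j hj
    apply LX.pi
    intro a
    refine (h2 a).congr (fun b => ?_)
    exact (hT b a).symm
  obtain ⟨μ, hμ⟩ := h3
  refine ⟨μ.flip, fun a b => ?_⟩
  rw [LinearMap.flip_apply, hμ, hT]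

lemma La_induction (hLa : Submodule.span Γ (Set.range La) = ⊤) {P : N → Prop}
    (h : ∀ a, P (La a)) (h0 : P 0) (hadd : ∀ x y, P x → P y → P (x + y))
    (hsmul : ∀ (c : Γ) x, P x → P (c • x)) (v : N) : P v := by
  have hn : v ∈ Submodule.span Γ (Set.range La) := by rw [hLa]; trivial
  induction hn using Submodule.span_induction with
  | mem y hy =>
    obtain ⟨a, rfl⟩ := hy
    exact h a
  | zero => exact h0
  | add x y _ _ hx hy => exact hadd x y hx hy
  | smul c x _ hx => exact hsmul c x hx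

end LX

end Pool.Agent.Hhelper65.B4
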