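import Pool.Agent.Hhelper65.B4.Mod4
import Pool.Agent.Hhelper65.PC.Main

/-!
# Part B4
-/

set_option linter.unusedSectionVars false
set_option linter.unusedVariables false

universe u v w

namespace Pool.Agent.Hhelper65.B4

open Pool.Agent.Hhelper8 Pool.Agent.Hhelper65.PC

section words

variable {F G : Type*} [Field F] [CharZero F] [NonUnitalNonAssocRing G] [Module F G]
  [IsScalarTower F G G] [SMulCommClass F G G]

variable {pr : G →ₗ[F] G →ₗ[F] G →ₗ[F] G}

variable {hG : VIds G} {hpr : ∀ a b c x : G, (6 : F) • pr (a * b) c x = P6 a b c x}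

variable {Γ : Type*} [CommRing Γ] [Algebra F Γ] [Module Γ (Gs F G)] {S : GS pr Γ}
  {u : G} {M : Type*} [AddCommGroup M] [Module Γ M] {T : MStr S u M}
  {A : VPA Γ (VV F G Γ)} (B : SM hG hpr S T A)

variable {ι : Type*} [DecidableEq ι]

/-- the letters -/
noncomputable def lett (x : ι → G) (i : ι) (j : ι) : EV (SM.ext B) :=
  if j = i then EV.mk 0 T.uh else EV.mk (La F Γ (x j)) 0

/-- the values of the words in the extension -/
noncomputable def wval (x : ι → G) (i : ι) (wd : FreeMagma ι) : EV (SM.ext B) :=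
  evW (fun p q => (ExtVPA (SM.ext B)).mul p q) (lett B x i) wd

lemma wval_mul (x : ι → G) (i : ι) (a b : FreeMagma ι) :
    wval B x i (a.mul b) = (ExtVPA (SM.ext B)).mul (wval B x i a) (wval B x i b) := rfl

lemma wval_zero (x : ι → G) (i : ι) (wd : FreeMagma ι) (h : cnt i wd = 0) :
    (wval B x i wd).1 = La F Γ (evW (fun p q => p * q) x wd) ∧ (wval B x i wd).2 = 0 := by
  induction wd with
  | ih1 j =>
    have hj : j ≠ i := by
      intro hji
      change (if j = i then 1 else 0) = 0 at h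
      rw [if_pos hji] at h
      omega
    have e : wval B x i (.of j) = EV.mk (La F Γ (x j)) 0 := by
      show lett B x i j = _
      unfold lett
      rw [if_neg hj]
    rw [e]
    exact ⟨rfl, rfl⟩
  | ih2 a b iha ihb =>
    have h' : cnt i a + cnt i b = 0 := h
    obtain ⟨h1, h2⟩ := iha (by omega)
    obtain ⟨h3, h4⟩ := ihb (by omega)
    rw [show a * b = a.mul b from rfl, wval_mul]
    refine ⟨?_, ?_⟩
    · rw [ExtVPA_mul_1, h1, h3, B.hAm]
      rfl
    · rw [ExtVPA_mul_2, h2, h4]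
      simp

lemma wval_one (x : ι → G) (i : ι) (hu : u = x i) (wd : FreeMagma ι) (h : cnt i wd = 1) :
    (wval B x i wd).1 = 0 ∧ ((wd = .of i ∧ (wval B x i wd).2 = T.uh) ∨
      ((∀ j, wd ≠ .of j) ∧ ∃ hm : evW (fun p q => p * q) x wd ∈ Gs F G,
        (wval B x i wd).2 = T.io ⟨evW (fun p q => p * q) x wd, hm⟩)) := by
  induction wd with
  | ih1 j =>
    have hj : j = i := by
      by_contra hji
      change (if j = i then 1 else 0) = 1 at h
      rw [if_neg hji] at h
      omega
    subst hj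
    have e : wval B x j (.of j) = EV.mk 0 T.uh := by
      show lett B x j j = _
      unfold lett
      rw [if_pos rfl]
    rw [e]
    exact ⟨rfl, Or.inl ⟨rfl, rfl⟩⟩
  | ih2 a b iha ihb =>
    have h' : cnt i a + cnt i b = 1 := h
    have key : ∀ (wd wd' : FreeMagma ι), ((wd = .of i ∧ (wval B x i wd).2 = T.uh) ∨
      ((∀ j, wd ≠ .of j) ∧ ∃ hm : evW (fun p q => p * q) x wd ∈ Gs F G,
        (wval B x i wd).2 = T.io ⟨evW (fun p q => p * q) x wd, hm⟩)) → ∀ b : G,
        (SM.ext B).act (wval B x i wd).2 (La F Γ b) =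
          T.io ⟨evW (fun p q => p * q) x wd * b, mul_mem_Gs _ _⟩ := by
      rintro wd - (⟨h1, h2⟩ | ⟨-, hm, h2⟩) b
      · rw [h2]
        show B.act _ _ = _
        rw [B.ha2, h1]
        apply SM.io_ext
        show u * b = x i * b
        rw [hu]
      · rw [h2]
        exact B.ha1 _ _
    rw [show a * b = a.mul b from rfl, wval_mul]
    rcases (by omega : (cnt i a = 1 ∧ cnt i b = 0) ∨ (cnt i a = 0 ∧ cnt i b = 1)) with
      ⟨ha, hb⟩ | ⟨ha, hb⟩
    · obtain ⟨h1, h2⟩ := iha ha
      obtain ⟨h3, h4⟩ := wval_zero B x i b hb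
      refine ⟨?_, Or.inr ⟨(by intro j hj; cases hj), mul_mem_Gs _ _, ?_⟩⟩
      · rw [ExtVPA_mul_1, h1]
        simp
      · rw [ExtVPA_mul_2, h3, h4, key a a h2]
        simp only [map_zero, LinearMap.zero_apply, sub_zero]
        rfl
    · obtain ⟨h1, h2⟩ := ihb hb
      obtain ⟨h3, h4⟩ := wval_zero B x i a ha
      refine ⟨?_, Or.inr ⟨(by intro j hj; cases hj), mul_mem_Gs _ _, ?_⟩⟩
      · rw [ExtVPA_mul_1, h1]
        simp
      · rw [ExtVPA_mul_2, h3, h4, key b b h2]
        simp only [map_zero, LinearMap.zero_apply, zero_sub]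
        rw [← map_neg]
        apply SM.io_ext
        show -(evW (fun p q => p * q) x b * evW (fun p q => p * q) x a) =
          evW (fun p q => p * q) x a * evW (fun p q => p * q) x b
        exact (ac hG _ _).symm

end words

/-- **Part B4**, with `F` and `G` in arbitrary universes -/
theorem partB4_univ (F : Type v) [Field F] [CharZero F] (G : Type u) [NonUnitalNonAssocRing G]
    [Module F G] [IsScalarTower F G G] [SMulCommClass F G G] (hG : VIds G)
    (pr : G →ₗ[F] G →ₗ[F] G →ₗ[F] G) (hpr : ∀ a b c x : G, (6 : F) • pr (a * b) c x = P6 a b c x)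
    (ι : Type w) [Fintype ι] [DecidableEq ι] (f : FreeMagma ι →₀ F)
    (hf : ∀ w ∈ f.support, MLin w) (hcard : 2 ≤ Fintype.card ι)
    (a0 b0 c0 : F) (ha : a0 ≠ 0) (hb : b0 ≠ 0) (hc : c0 ≠ 0)
    (hv : ∀ v : ι → (Fin 7 → F), evP F (tab a0 b0 c0) f v = 0) (x : ι → G) (i : ι) :
    ∃ α ∈ Submodule.span F {β : G →ₗ[F] G | ∃ a b t : G, β = pr (a * b) t},
      α (x i) = evP F (fun p q => p * q) f x ∧ ∀ p q : G, α (p * q) = 0 := by
  classical
  obtain ⟨A, hAm, hAf⟩ := exists_VPA hG hpr (gs hG pr hpr)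
  let T := mstr hG hpr (gs hG pr hpr) (x i)
  obtain ⟨act, ha1, ha2⟩ := exists_act hG hpr (gs hG pr hpr) T
  obtain ⟨φ, hf1, hf2⟩ := exists_form hG hpr (gs hG pr hpr) T
  let B : SM hG hpr (gs hG pr hpr) T A := ⟨hAm, hAf, act, ha1, ha2, φ, hf1, hf2⟩
  have h := partC_univ F ι f hf a0 b0 c0 ha hb hc hv (RP (Gam hG pr hpr) (SM.HH B))
    (EV (SM.ext B)) (ExtVPA (SM.ext B)) (lett B x i)
  have hw : ∀ wd ∈ f.support, ∃ hm : evW (fun p q => p * q) x wd ∈ Gs F G,
        (wval B x i wd).2 = T.io ⟨evW (fun p q => p * q) x wd, hm⟩ ∧ (wval B x i wd).1 = 0 := by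
    intro wd hwd
    obtain ⟨h1, h2⟩ := wval_one B x i rfl wd (hf wd hwd i)
    rcases h2 with ⟨h2, -⟩ | ⟨-, hm, h2⟩
    · exfalso
      have hone : ∀ j, j = i := by
        intro j
        have h3 := hf wd hwd j
        rw [h2] at h3
        change (if i = j then 1 else 0) = 1 at h3
        by_contra hij
        rw [if_neg (fun h => hij h.symm)] at h3
        omega
      have : Fintype.card ι ≤ 1 := Fintype.card_le_one_iff.mpr (fun a b => (hone a).trans (hone b).symm)
      omega
    · exact ⟨hm, h2, h1⟩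
  let pw : FreeMagma ι → Gs F G := fun wd =>
    if hm : evW (fun p q => p * q) x wd ∈ Gs F G then ⟨evW (fun p q => p * q) x wd, hm⟩ else 0
  have hpw : ∀ wd ∈ f.support, (wval B x i wd).2 = T.io (pw wd) ∧
      ((pw wd : Gs F G) : G) = evW (fun p q => p * q) x wd := by
    intro wd hwd
    obtain ⟨hm, h1, -⟩ := hw wd hwd
    show _ = T.io (if hm : evW (fun p q => p * q) x wd ∈ Gs F G then
      ⟨evW (fun p q => p * q) x wd, hm⟩ else 0) ∧
      ((if hm : evW (fun p q => p * q) x wd ∈ Gs F G then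
      ⟨evW (fun p q => p * q) x wd, hm⟩ else 0 : Gs F G) : G) = _
    rw [dif_pos hm]
    exact ⟨h1, rfl⟩
  have h0 : T.io (∑ wd ∈ f.support, f wd • pw wd) = 0 := by
    have hs : (evP (RP (Gam hG pr hpr) (SM.HH B)) (fun p q => (ExtVPA (SM.ext B)).mul p q) f
        (lett B x i)).2 = ∑ wd ∈ f.support, T.io (f wd • pw wd) := by
      unfold evP Finsupp.sum
      have hsnd : ∀ (s : Finset (FreeMagma ι)) (g : FreeMagma ι → EV (SM.ext B)),
          (∑ wd ∈ s, g wd).2 = ∑ wd ∈ s, (g wd).2 := by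
        intro s g
        induction s using Finset.induction_on with
        | empty => rfl
        | insert a s has ih =>
          rw [Finset.sum_insert has, Finset.sum_insert has, EV.add_2, ih]
      rw [hsnd]
      apply Finset.sum_congr rfl
      intro wd hwd
      rw [EV.smul_2]
      rw [RP.algebraMap_eq, RP.inl_fst, RP.inl_snd, map_zero, LinearMap.zero_apply, add_zero]
      show algebraMap F (Gam hG pr hpr) (f wd) • (wval B x i wd).2 = _
      rw [(hpw wd hwd).1, ← map_smul, (gs hG pr hpr).F_smul]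
    rw [map_sum, ← hs, h]
    rfl
  obtain ⟨α, hα, h1, h2⟩ := T.ker _ h0
  refine ⟨α, hα, ?_, h2⟩
  rw [h1]
  unfold evP Finsupp.sum
  rw [AddSubmonoidClass.coe_finsetSum]
  apply Finset.sum_congr rfl
  intro wd hwd
  rw [Submodule.coe_smul, (hpw wd hwd).2]
  rfl

/-- **Part B4** -/
theorem partB4 : Pool.Agent.Hhelper8.PartB4.{u} := by
  intro F _ _ G _ _ _ _ hG pr hpr ι _ _ f hf hcard a0 b0 c0 ha hb hc hv x i
  exact partB4_univ F G hG pr hpr ι f hf hcard a0 b0 c0 ha hb hc hv x i

end Pool.Agent.Hhelper65.B4
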