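import Pool.Agent.Hhelper65.B4.Vp
import Pool.Agent.Hhelper65.PC.Ext

/-!
# Part B4, step 3: the module over the vector product algebra
-/

set_option linter.unusedSectionVars false
set_option linter.unusedVariables false

namespace Pool.Agent.Hhelper65.B4

open Pool.Agent.Hhelper8

section

variable {F G : Type*} [Field F] [CharZero F] [NonUnitalNonAssocRing G] [Module F G]
  [IsScalarTower F G G] [SMulCommClass F G G]

/-- the span of the brackets -/
def A0 (pr : G →ₗ[F] G →ₗ[F] G →ₗ[F] G) : Submodule F (G →ₗ[F] G) :=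
  Submodule.span F {β : G →ₗ[F] G | ∃ a b t : G, β = pr (a * b) t}

variable {pr : G →ₗ[F] G →ₗ[F] G →ₗ[F] G}

lemma A0_induction {P : (G →ₗ[F] G) → Prop} (h : ∀ a b t, P (pr (a * b) t)) (h0 : P 0)
    (hadd : ∀ x y, P x → P y → P (x + y)) (hsmul : ∀ (c : F) x, P x → P (c • x))
    {α : G →ₗ[F] G} (hα : α ∈ A0 pr) : P α := by
  unfold A0 at hα
  induction hα using Submodule.span_induction with
  | mem y hy =>
    obtain ⟨a, b, t, rfl⟩ := hy
    exact h a b t
  | zero => exact h0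
  | add x y _ _ hx hy => exact hadd x y hx hy
  | smul c x _ hx => exact hsmul c x hx

lemma pr_mem_A0 {w : G} (hw : w ∈ Gs F G) (t : G) : pr w t ∈ A0 pr := by
  refine Gs_induction (F := F) (P := fun w => pr w t ∈ A0 pr) ?_ ?_ ?_ ?_ hw
  · intro a b
    exact Submodule.subset_span ⟨a, b, t, rfl⟩
  · rw [map_zero, LinearMap.zero_apply]
    exact zero_mem _
  · intro p q hp hq
    rw [map_add, LinearMap.add_apply]
    exact add_mem hp hq
  · intro r p hp
    rw [map_smul, LinearMap.smul_apply]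
    exact Submodule.smul_mem _ _ hp

variable (hG : VIds G) (hpr : ∀ a b c x : G, (6 : F) • pr (a * b) c x = P6 a b c x)

section A0

include hG hpr

lemma A0_mem {α : G →ₗ[F] G} (hα : α ∈ A0 pr) (x : G) : α x ∈ Gs F G := by
  refine A0_induction (P := fun α => α x ∈ Gs F G) ?_ ?_ ?_ ?_ hα
  · intro a b t
    exact pr_mem hG pr hpr (mul_mem_Gs _ _) _ _
  · exact zero_mem _
  · intro p q hp hq
    exact add_mem hp hq
  · intro r p hp
    exact Submodule.smul_mem _ _ hp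

lemma A0_mul {α : G →ₗ[F] G} (hα : α ∈ A0 pr) (x y : G) : α (x * y) = α x * y := by
  refine A0_induction (P := fun α => α (x * y) = α x * y) ?_ ?_ ?_ ?_ hα
  · intro a b t
    exact prA hG pr hpr (mul_mem_Gs _ _) _ _ _
  · simp
  · intro p q hp hq
    rw [LinearMap.add_apply, LinearMap.add_apply, hp, hq, add_mul]
  · intro r p hp
    rw [LinearMap.smul_apply, LinearMap.smul_apply, hp, smul_mul_assoc]

variable {Γ : Type*} [CommRing Γ] [Algebra F Γ] [Module Γ (Gs F G)] (S : GS pr Γ)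

include S

lemma A0_exists {α : G →ₗ[F] G} (hα : α ∈ A0 pr) :
    ∃ γ : Γ, ∀ m : Gs F G, ((γ • m : Gs F G) : G) = α m := by
  refine A0_induction (pr := pr) (P := fun α : G →ₗ[F] G => ∃ γ : Γ, ∀ m : Gs F G,
    ((γ • m : Gs F G) : G) = α m)
    ?_ ?_ ?_ ?_ hα
  · intro a b t
    refine ⟨S.th (a * b) t, fun m => ?_⟩
    rw [S.th_smul, thf_prod hG pr hpr (mul_mem_Gs _ _) m.2]
  · exact ⟨0, fun m => by rw [zero_smul]; rfl⟩
  · rintro p q ⟨γ, hγ⟩ ⟨γ', hγ'⟩
    exact ⟨γ + γ', fun m => by rw [add_smul, Submodule.coe_add, hγ, hγ', LinearMap.add_apply]⟩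
  · rintro r p ⟨γ, hγ⟩
    exact ⟨algebraMap F Γ r * γ, fun m => by
      rw [mul_smul, S.F_smul, Submodule.coe_smul, hγ, LinearMap.smul_apply]⟩

lemma A0_stable {α : G →ₗ[F] G} (hα : α ∈ A0 pr) (γ : Γ) :
    ∃ α' ∈ A0 pr, ∀ (x : G) (m : Gs F G), (m : G) = α x → ((γ • m : Gs F G) : G) = α' x := by
  refine (A0_induction (P := fun α => (∀ x, α x ∈ Gs F G) ∧ ∃ α' ∈ A0 pr,
    ∀ (x : G) (m : Gs F G), (m : G) = α x → ((γ • m : Gs F G) : G) = α' x) ?_ ?_ ?_ ?_ hα).2
  · intro a b t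
    refine ⟨fun x => pr_mem hG pr hpr (mul_mem_Gs _ _) _ _,
      pr (γ • (⟨a * b, mul_mem_Gs a b⟩ : Gs F G) : Gs F G) t, pr_mem_A0 (Subtype.prop _) t,
      fun x m hm => ?_⟩
    exact S.br γ ⟨a * b, mul_mem_Gs a b⟩ m t x hm
  · refine ⟨fun x => zero_mem _, 0, zero_mem _, fun x m hm => ?_⟩
    have : m = 0 := Subtype.ext hm
    rw [this, smul_zero]
    rfl
  · rintro p q ⟨hp0, p', hp1, hp2⟩ ⟨hq0, q', hq1, hq2⟩
    refine ⟨fun x => add_mem (hp0 x) (hq0 x), p' + q', add_mem hp1 hq1, fun x m hm => ?_⟩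
    have : m = ⟨p x, hp0 x⟩ + ⟨q x, hq0 x⟩ := Subtype.ext hm
    rw [this, smul_add, Submodule.coe_add, hp2 x _ rfl, hq2 x _ rfl]
    rfl
  · rintro r p ⟨hp0, p', hp1, hp2⟩
    refine ⟨fun x => Submodule.smul_mem _ _ (hp0 x), r • p', Submodule.smul_mem _ _ hp1,
      fun x m hm => ?_⟩
    have : m = algebraMap F Γ r • (⟨p x, hp0 x⟩ : Gs F G) := by
      rw [S.F_smul]
      exact Subtype.ext hm
    rw [this, ← mul_smul, mul_comm, mul_smul, S.F_smul, Submodule.coe_smul, hp2 x _ rfl]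
    rfl

end A0

end

end Pool.Agent.Hhelper65.B4
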