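import Pool.Agent.Hhelper65.B4.Mod

/-!
# Part B4, step 3: the module `M` and its structure maps
-/

set_option linter.unusedSectionVars false
set_option linter.unusedVariables false

namespace Pool.Agent.Hhelper65.B4

open Pool.Agent.Hhelper8

section

variable {F G : Type*} [Field F] [CharZero F] [NonUnitalNonAssocRing G] [Module F G]
  [IsScalarTower F G G] [SMulCommClass F G G]

variable {pr : G →ₗ[F] G →ₗ[F] G →ₗ[F] G}

variable (hG : VIds G) (hpr : ∀ a b c x : G, (6 : F) • pr (a * b) c x = P6 a b c x)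

variable {Γ : Type*} [CommRing Γ] [Algebra F Γ] [Module Γ (Gs F G)] (S : GS pr Γ)

/-- the properties of the module `M` -/
structure MStr (S : GS pr Γ) (u : G) (M : Type*) [AddCommGroup M] [Module Γ M] where
  io : Gs F G →ₗ[Γ] M
  uh : M
  gen : ∀ x : M, ∃ (m : Gs F G) (γ : Γ), x = io m + γ • uh
  rel : ∀ α ∈ A0 pr, ∀ (γ : Γ) (m0 : Gs F G), (m0 : G) = α u →
    (∀ m : Gs F G, ((γ • m : Gs F G) : G) = α m) → γ • uh = io m0
  lift : ∀ (D : Gs F G →ₗ[Γ] M) (w : M), (∀ α ∈ A0 pr, ∀ (γ : Γ) (m0 : Gs F G), (m0 : G) = α u →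
    (∀ m : Gs F G, ((γ • m : Gs F G) : G) = α m) → D m0 = γ • w) →
    ∃ T : M →ₗ[Γ] M, (∀ m, T (io m) = D m) ∧ T uh = w
  ker : ∀ m : Gs F G, io m = 0 → ∃ α ∈ A0 pr, α u = m ∧ ∀ p q : G, α (p * q) = 0

include hG hpr S in
/-- the relations of the module -/
def KK (u : G) : Submodule Γ (Gs F G × Γ) where
  carrier := {p | ∃ α ∈ A0 pr, (p.1 : G) = α u ∧ ∀ m : Gs F G, ((p.2 • m : Gs F G) : G) = -(α m)}
  add_mem' := by
    rintro p q ⟨α, h1, h2, h3⟩ ⟨β, h4, h5, h6⟩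
    refine ⟨α + β, add_mem h1 h4, ?_, fun m => ?_⟩
    · rw [Prod.fst_add, Submodule.coe_add, h2, h5]
      rfl
    · rw [Prod.snd_add, add_smul, Submodule.coe_add, h3, h6, LinearMap.add_apply, neg_add]
  zero_mem' := ⟨0, zero_mem _, rfl, fun m => by
    show (((0 : Γ) • m : Gs F G) : G) = _
    rw [zero_smul]
    simp⟩
  smul_mem' := by
    rintro γ p ⟨α, h1, h2, h3⟩
    obtain ⟨α', h4, h5⟩ := A0_stable hG hpr S h1 γ
    refine ⟨α', h4, h5 u p.1 h2, fun m => ?_⟩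
    have e : (⟨α m, A0_mem hG hpr h1 m⟩ : Gs F G) = -(p.2 • m) := by
      apply Subtype.ext
      show α m = -((p.2 • m : Gs F G) : G)
      rw [h3, neg_neg]
    rw [← h5 m ⟨α m, A0_mem hG hpr h1 m⟩ rfl, e]
    show ((((γ • p.2) • m : Gs F G)) : G) = -((γ • -(p.2 • m) : Gs F G) : G)
    rw [smul_neg, Submodule.coe_neg, neg_neg, smul_assoc]

/-- the module `M` -/
def mstr (u : G) : MStr S u ((Gs F G × Γ) ⧸ KK hG hpr S u) where
  io := (KK hG hpr S u).mkQ ∘ₗ LinearMap.inl Γ (Gs F G) Γ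
  uh := (KK hG hpr S u).mkQ (0, 1)
  gen := by
    intro x
    obtain ⟨⟨m, γ⟩, rfl⟩ := (KK hG hpr S u).mkQ_surjective x
    refine ⟨m, γ, ?_⟩
    rw [LinearMap.comp_apply, ← map_smul, ← map_add]
    congr 1
    simp
  rel := by
    intro α hα γ m0 hm0 hγ
    rw [← sub_eq_zero, ← neg_eq_zero, neg_sub, LinearMap.comp_apply, ← map_smul, ← map_sub]
    rw [Submodule.mkQ_apply, Submodule.Quotient.mk_eq_zero]
    refine ⟨α, hα, ?_, fun m => ?_⟩
    · simpa using hm0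
    · simp [hγ]
  lift := by
    intro D w h
    refine ⟨(KK hG hpr S u).liftQ (D.coprod (LinearMap.toSpanSingleton Γ _ w)) ?_, ?_, ?_⟩
    · rintro ⟨m0, γ⟩ ⟨α, hα, h1, h2⟩
      rw [LinearMap.mem_ker]
      show D m0 + γ • w = 0
      rw [h α hα (-γ) m0 h1 (fun m => by rw [neg_smul, Submodule.coe_neg, h2, neg_neg]), neg_smul,
        neg_add_cancel]
    · intro m
      rw [LinearMap.comp_apply, Submodule.mkQ_apply, Submodule.liftQ_apply]
      simp
    · rw [Submodule.mkQ_apply, Submodule.liftQ_apply]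
      simp
  ker := by
    intro m hm
    rw [LinearMap.comp_apply, Submodule.mkQ_apply, Submodule.Quotient.mk_eq_zero] at hm
    obtain ⟨α, hα, h1, h2⟩ := hm
    refine ⟨α, hα, h1.symm, fun p q => ?_⟩
    have := h2 ⟨p * q, mul_mem_Gs p q⟩
    simp at this
    exact this

end

end Pool.Agent.Hhelper65.B4
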