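import Pool.Agent.Hhelper65.B4.Mod2

/-!
# Part B4, step 3: the structure maps
-/

set_option linter.unusedSectionVars false
set_option linter.unusedVariables false

namespace Pool.Agent.Hhelper65.B4

open Pool.Agent.Hhelper8

section

variable {F G : Type*} [Field F] [CharZero F] [NonUnitalNonAssocRing G] [Module F G]
  [IsScalarTower F G G] [SMulCommClass F G G]

variable {pr : G →ₗ[F] G →ₗ[F] G →ₗ[F] G}

variable (hG : VIds G) (hpr : ∀ a b c x : G, (6 : F) • pr (a * b) c x = P6 a b c x)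

variable {Γ : Type*} [CommRing Γ] [Algebra F Γ] [Module Γ (Gs F G)] (S : GS pr Γ)
  {u : G} {M : Type*} [AddCommGroup M] [Module Γ M] (T : MStr S u M)

section gener

lemma MStr.hom_ext {W : Type*} [AddCommGroup W] [Module Γ W] {φ ψ : M →ₗ[Γ] W}
    (h1 : ∀ m, φ (T.io m) = ψ (T.io m)) (h2 : φ T.uh = ψ T.uh) : φ = ψ := by
  ext x
  obtain ⟨m, γ, rfl⟩ := T.gen x
  rw [map_add, map_add, map_smul, map_smul, h1, h2]

lemma MStr.induction {P : M → Prop} (h1 : ∀ m, P (T.io m)) (h2 : P T.uh)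
    (hadd : ∀ x y, P x → P y → P (x + y)) (hsmul : ∀ (γ : Γ) x, P x → P (γ • x)) (x : M) : P x := by
  obtain ⟨m, γ, rfl⟩ := T.gen x
  exact hadd _ _ (h1 m) (hsmul γ _ h2)

/-- extension of families of linear maps -/
lemma MStr.LX_hom {t : G → (M →ₗ[Γ] M)} (h1 : ∀ m, LX Γ (La F Γ) (fun a => t a (T.io m)))
    (h2 : LX Γ (La F Γ) (fun a => t a T.uh)) : LX Γ (La F Γ) t := by
  let j : (M →ₗ[Γ] M) →ₗ[Γ] ((Gs F G → M) × M) :=
    { toFun := fun φ => (fun m => φ (T.io m), φ T.uh)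
      map_add' := fun _ _ => rfl
      map_smul' := fun _ _ => rfl }
  apply LX.of_inj (span_La F G Γ) j
  · intro φ ψ h
    exact MStr.hom_ext S T (fun m => congrFun (congrArg Prod.fst h) m) (congrArg Prod.snd h)
  · exact LX.prod (LX.pi h1) h2

lemma LXG.toLX {W : Type*} [AddCommGroup W] [Module Γ W] {t : G → G} (h : LXG F Γ t)
    {t' : G → Gs F G} (ht : ∀ a, (t' a : G) = t a) (D : Gs F G →ₗ[Γ] W) :
    LX Γ (La F Γ) (fun a => D (t' a)) := by
  obtain ⟨t1, h1, h2⟩ := h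
  refine (h2.comp D).congr (fun a => ?_)
  congr 1
  exact Subtype.ext ((h1 a).trans (ht a).symm)

end gener

section act

include hG hpr in
lemma exists_actT (a : G) : ∃ φ : M →ₗ[Γ] M,
    (∀ m : Gs F G, φ (T.io m) = T.io ⟨(m : G) * a, mul_mem_Gs _ _⟩) ∧
    φ T.uh = T.io ⟨u * a, mul_mem_Gs _ _⟩ := by
  obtain ⟨φ, h1, h2⟩ := T.lift (T.io ∘ₗ Rm S a) (T.io ⟨u * a, mul_mem_Gs _ _⟩) (by
    intro α hα γ m0 hm0 hγ
    rw [← map_smul, LinearMap.comp_apply]
    congr 1
    apply Subtype.ext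
    rw [Rm_apply, hm0, hγ, A0_mul hG hpr hα])
  exact ⟨φ, h1, h2⟩

include hG hpr in
/-- the action -/
theorem exists_act : ∃ act : M →ₗ[Γ] VV F G Γ →ₗ[Γ] M,
    (∀ (m : Gs F G) a, act (T.io m) (La F Γ a) = T.io ⟨(m : G) * a, mul_mem_Gs _ _⟩) ∧
    ∀ a, act T.uh (La F Γ a) = T.io ⟨u * a, mul_mem_Gs _ _⟩ := by
  choose φ h1 h2 using exists_actT hG hpr S T
  obtain ⟨μ, hμ⟩ : LX Γ (La F Γ) φ := by
    apply MStr.LX_hom S T
    · intro m
      refine LX.congr ?_ (fun a => (h1 a m).symm)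
      exact LXG.toLX (LXG.ev' hG (m : G)) (fun a => rfl) T.io
    · refine LX.congr ?_ (fun a => (h2 a).symm)
      exact LXG.toLX (LXG.ev' hG u) (fun a => rfl) T.io
  refine ⟨μ.flip, fun m a => ?_, fun a => ?_⟩
  · rw [LinearMap.flip_apply, hμ, h1]
  · rw [LinearMap.flip_apply, hμ, h2]

end act

/-- the element `g(x,c)` -/
def gg (F : Type*) {G : Type*} [Field F] [NonUnitalNonAssocRing G] [Module F G] (u x c : G) : G :=
  (3 : F)⁻¹ • ((2 : F) • ((u * x) * c) + u * (x * c) + (u * c) * x)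

lemma gg_mem (u x c : G) : gg F u x c ∈ Gs F G :=
  Submodule.smul_mem _ _ (add_mem (add_mem (Submodule.smul_mem _ _ (mul_mem_Gs _ _))
    (mul_mem_Gs _ _)) (mul_mem_Gs _ _))

section form

/-- the element `X(x,c)` -/
def XM (x c : G) : M := T.io ⟨gg F u x c, gg_mem u x c⟩ + S.th x c • T.uh

include hG hpr in
lemma pr_gg {m : G} (hm : m ∈ Gs F G) (x c : G) : pr m c x = gg F m x c + thf pr x c m := by
  have h := prF4 hG pr hpr hm c x
  apply cancel F (n := 3) (by norm_num)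
  unfold gg thf
  rw [smul_add, ← mul_smul]
  push_cast
  rw [mul_inv_cancel₀ (by norm_num), one_smul]
  rw [ac hG c x, mul_neg] at h
  linear_combination (norm := module) (-1 : F) • h

include hG hpr in
lemma exists_phi (c x : G) : ∃ φ : M →ₗ[Γ] M,
    (∀ m : Gs F G, φ (T.io m) = T.io ⟨pr m c x, pr_mem hG pr hpr m.2 c x⟩) ∧
    φ T.uh = XM S T x c := by
  obtain ⟨φ, h1, h2⟩ := T.lift (T.io ∘ₗ Brm hG hpr S c x) (XM S T x c) (by
    intro α hα γ m0 hm0 hγ
    have e1 : γ • T.uh = T.io m0 := T.rel α hα γ m0 hm0 hγ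
    unfold XM
    rw [smul_add, smul_smul, mul_comm, mul_smul, e1, ← map_smul, ← map_smul, ← map_add,
      LinearMap.comp_apply]
    congr 1
    apply Subtype.ext
    rw [Brm_apply, Submodule.coe_add, hγ, S.th_smul, pr_gg hG hpr m0.2, hm0]
    congr 1
    show gg F (α u) x c = α (gg F u x c)
    unfold gg
    simp only [map_smul, map_add, A0_mul hG hpr hα])
  exact ⟨φ, h1, h2⟩

include hG hpr S in
lemma LXG_pr {m : G} (hm : m ∈ Gs F G) (t : G) : LXG F Γ (fun x => pr m t x) := by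
  refine Gs_induction (F := F) (P := fun m => LXG F Γ (fun x => pr m t x)) ?_ ?_ ?_ ?_ hm
  · intro a b
    have h1 : LXG F Γ (fun x => P6 a b t x) := by
      unfold P6 S4
      refine LXG.sub (LXG.add ?_ ?_) ?_
      · refine LXG.add (LXG.sub ?_ ?_) (LXG.add ?_ ?_)
        · exact LXG.ev' hG _
        · exact LXG.mulR S (LXG.ev' hG _) _
        · exact LXG.mulL hG S (LXG.ev' hG _) _
        · exact LXG.mulL hG S (LXG.ev' hG _) _
      · refine LXG.add (LXG.sub ?_ ?_) (LXG.add ?_ ?_)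
        · exact LXG.mulR S (LXG.mulR S (LXG.ev' hG _) _) _
        · exact LXG.mulR S (LXG.mulR S (LXG.ev' hG _) _) _
        · exact LXG.mulR S (LXG.ev' hG _) _
        · exact LXG.mulR S (LXG.ev' hG _) _
      · refine LXG.add (LXG.sub ?_ ?_) (LXG.add ?_ ?_)
        · exact LXG.ev' hG _
        · exact LXG.mulR S (LXG.ev' hG _) _
        · exact LXG.mulL hG S (LXG.ev' hG _) _
        · exact LXG.mulL hG S (LXG.ev' hG _) _
    exact (LXG.smul S h1 (6 : F)⁻¹).congr (fun x => (pr_eq hG pr hpr a b t x).symm)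
  · exact LXG.zero.congr (fun a => by simp)
  · intro p q hp hq
    exact (hp.add hq).congr (fun a => by simp)
  · intro r p hp
    exact (LXG.smul S hp r).congr (fun a => by simp)

include hG hpr S in
lemma LXG_pr' {m : G} (hm : m ∈ Gs F G) (x : G) : LXG F Γ (fun c => pr m c x) := by
  have h1 : LXG F Γ (fun c => (3 : F) • pr m x c +
      (-((m * c) * x) + (m * x) * c - (2 : F) • (m * (c * x)))) := by
    refine LXG.add (LXG.smul S (LXG_pr hG hpr S hm x) _) (LXG.sub (LXG.add (LXG.neg ?_) ?_) ?_)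
    · exact LXG.mulR S (LXG.ev' hG _) _
    · exact LXG.ev' hG _
    · exact LXG.smul S (LXG.mulL hG S (LXG.ev _) _) _
  refine (LXG.smul S h1 (3 : F)⁻¹).congr (fun c => ?_)
  rw [← prF4 hG pr hpr hm c x]
  module

include hG S in
lemma LXG_gg1 (c : G) : LXG F Γ (fun x => gg F u x c) := by
  unfold gg
  refine LXG.smul S (LXG.add (LXG.add (LXG.smul S ?_ _) ?_) ?_) _
  · exact LXG.mulR S (LXG.ev' hG _) _
  · exact LXG.mulL hG S (LXG.ev _) _
  · exact LXG.ev' hG _

include hG S in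
lemma LXG_gg2 (x : G) : LXG F Γ (fun c => gg F u x c) := by
  unfold gg
  refine LXG.smul S (LXG.add (LXG.add (LXG.smul S ?_ _) ?_) ?_) _
  · exact LXG.ev' hG _
  · exact LXG.mulL hG S (LXG.ev' hG _) _
  · exact LXG.mulR S (LXG.ev' hG _) _

include hG hpr in
lemma LX_XM1 (c : G) : LX Γ (La F Γ) (fun x => XM S T x c) := by
  unfold XM
  refine LX.add ?_ ?_
  · exact LXG.toLX (LXG_gg1 hG S c) (fun a => rfl) T.io
  · exact (LX_th hG hpr S c).comp (LinearMap.toSpanSingleton Γ M T.uh)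

include hG hpr in
lemma LX_XM2 (x : G) : LX Γ (La F Γ) (fun c => XM S T x c) := by
  unfold XM
  refine LX.add ?_ ?_
  · exact LXG.toLX (LXG_gg2 hG S x) (fun a => rfl) T.io
  · refine LX.congr ((LX_th hG hpr S x).comp (LinearMap.toSpanSingleton Γ M T.uh)) (fun c => ?_)
    rw [th_symm hG hpr S c x]
    rfl

include hG hpr in
/-- the form -/
theorem exists_form : ∃ φ : VV F G Γ →ₗ[Γ] VV F G Γ →ₗ[Γ] M →ₗ[Γ] M,
    (∀ c x (m : Gs F G), φ (La F Γ c) (La F Γ x) (T.io m) =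
      T.io ⟨pr m c x, pr_mem hG pr hpr m.2 c x⟩) ∧
    ∀ c x, φ (La F Γ c) (La F Γ x) T.uh = XM S T x c := by
  choose φ h1 h2 using exists_phi hG hpr S T
  obtain ⟨μ, hμ⟩ := LX.two (span_La F G Γ) (β := φ) (fun x => by
    apply MStr.LX_hom S T
    · intro m
      refine LX.congr ?_ (fun c => (h1 c x m).symm)
      exact LXG.toLX (LXG_pr' hG hpr S m.2 x) (fun a => rfl) T.io
    · refine LX.congr ?_ (fun c => (h2 c x).symm)
      exact LX_XM2 hG hpr S T x) (fun c => by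
    apply MStr.LX_hom S T
    · intro m
      refine LX.congr ?_ (fun x => (h1 c x m).symm)
      exact LXG.toLX (LXG_pr hG hpr S m.2 c) (fun a => rfl) T.io
    · refine LX.congr ?_ (fun x => (h2 c x).symm)
      exact LX_XM1 hG hpr S T c)
  exact ⟨μ, fun c x m => by rw [hμ, h1], fun c x => by rw [hμ, h2]⟩

end form

end

end Pool.Agent.Hhelper65.B4
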