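import Pool.Agent.Hhelper65.B4.Mod3

/-!
# Part B4, step 3: the square-zero extension data
-/

set_option linter.unusedSectionVars false
set_option linter.unusedVariables false

namespace Pool.Agent.Hhelper65.B4

open Pool.Agent.Hhelper8 Pool.Agent.Hhelper65.PC

section

variable {F G : Type*} [Field F] [CharZero F] [NonUnitalNonAssocRing G] [Module F G]
  [IsScalarTower F G G] [SMulCommClass F G G]

variable {pr : G →ₗ[F] G →ₗ[F] G →ₗ[F] G}

section ids

variable (hG : VIds G) (hpr : ∀ a b c x : G, (6 : F) • pr (a * b) c x = P6 a b c x)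

include hG in
lemma three_gg (u x c : G) : (3 : F) • gg F u x c = (2 : F) • G2 u x c + G2 u c x := by
  unfold gg G2
  rw [smul_smul, mul_inv_cancel₀ (by norm_num), one_smul, ac hG c x, mul_neg]
  module

include hG hpr in
lemma id1 (u x y c : G) :
    gg F u (x * y) c + pr (x * y) c u = gg F u x c * y + thf pr x c (u * y) := by
  have h := hG.idn1 u x y c
  apply cancel6 F
  have e1 : (6 : F) • (gg F u (x * y) c + pr (x * y) c u) =
      (2 : F) • ((3 : F) • gg F u (x * y) c) + (6 : F) • pr (x * y) c u := by module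
  have e2 : (6 : F) • (gg F u x c * y + thf pr x c (u * y)) =
      (2 : F) • (((3 : F) • gg F u x c) * y) + (6 : F) • thf pr x c (u * y) := by
    rw [smul_mul_assoc]
    module
  rw [e1, e2, three_gg hG, three_gg hG, hpr, six_thf pr hpr]
  simp only [← Int.cast_smul_eq_zsmul F] at h
  push_cast at h
  rw [add_mul, smul_mul_assoc]
  exact h.symm

include hG hpr in
lemma id2 (u x c y z : G) :
    (3 : F) • pr (gg F u x c) y z + (3 : F) • thf pr x c (gg F u z y) -
      (3 : F) • thf pr x y (gg F u z c) +
      pr ((x * y) * c - (x * c) * y + (2 : F) • (x * (y * c))) z u = 0 := by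
  have h := hG.idn2 u x c y z
  apply cancel6 F
  rw [smul_zero, ← h]
  have eb : ∀ p q : G, brG u p q y z = (6 : F) • pr (G2 u p q) y z := by
    intro p q
    unfold brG G2
    rw [map_add, LinearMap.add_apply, LinearMap.add_apply, smul_add, hpr, hpr]
  have et : ∀ x y p q : G, thG u x y p q = (6 : F) • thf pr x y (G2 u p q) := by
    intro x y p q
    unfold thG G2
    rw [thf_add, smul_add, six_thf pr hpr, six_thf pr hpr]
  have e1 : (3 : F) • pr (gg F u x c) y z = pr ((3 : F) • gg F u x c) y z := by
    rw [map_smul, LinearMap.smul_apply, LinearMap.smul_apply]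
  have e2 : ∀ p q r : G, (3 : F) • thf pr x p (gg F u q r) = thf pr x p ((3 : F) • gg F u q r) := by
    intro p q r
    rw [thf_smul]
  rw [e1, e2, e2, three_gg hG, three_gg hG, three_gg hG, eb, eb, et, et, et, et, ← hpr, ← hpr,
    ← hpr]
  simp only [map_add, map_sub, map_smul, LinearMap.add_apply, LinearMap.sub_apply,
    LinearMap.smul_apply, thf_add, thf_smul]
  simp only [← Int.cast_smul_eq_zsmul F]
  push_cast
  module

include hG hpr in
lemma id3 (u b c x : G) : pr (u * b) c x = gg F u x (b * c) + pr (b * c) x u := by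
  have h := hG.idn3 u b c x
  apply cancel6 F
  have e1 : (6 : F) • (gg F u x (b * c) + pr (b * c) x u) =
      (2 : F) • ((3 : F) • gg F u x (b * c)) + (6 : F) • pr (b * c) x u := by module
  rw [e1, three_gg hG, hpr, hpr, h]
  simp only [← Int.cast_smul_eq_zsmul F]
  push_cast
  module

include hG in
lemma id4 (u x y : G) : (2 : F) • gg F u x y - gg F u y x = (u * x) * y + u * (x * y) := by
  apply cancel F (n := 3) (by norm_num)
  push_cast
  have e1 : (3 : F) • ((2 : F) • gg F u x y - gg F u y x) =
      (2 : F) • ((3 : F) • gg F u x y) - (3 : F) • gg F u y x := by module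
  rw [e1, three_gg hG, three_gg hG]
  unfold G2
  module

end ids

variable (hG : VIds G) (hpr : ∀ a b c x : G, (6 : F) • pr (a * b) c x = P6 a b c x)

variable {Γ : Type*} [CommRing Γ] [Algebra F Γ] [Module Γ (Gs F G)] (S : GS pr Γ)
  {u : G} {M : Type*} [AddCommGroup M] [Module Γ M] (T : MStr S u M)

include hG hpr in
/-- the relation for the element `θ(xy, c)` -/
lemma rel_th {w : G} (hw : w ∈ Gs F G) (t : G) :
    S.th w t • T.uh = T.io ⟨pr w t u, pr_mem hG pr hpr hw t u⟩ := by
  apply T.rel (pr w t) (pr_mem_A0 hw t) (S.th w t) _ rfl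
  intro m
  rw [S.th_smul, thf_prod hG pr hpr hw m.2]

/-- structure maps of the module -/
structure SM (hG : VIds G) (hpr : ∀ a b c x : G, (6 : F) • pr (a * b) c x = P6 a b c x)
    (S : GS pr Γ) {u : G} {M : Type*} [AddCommGroup M] [Module Γ M] (T : MStr S u M)
    (A : VPA Γ (VV F G Γ)) where
  hAm : ∀ a b, A.mul (La F Γ a) (La F Γ b) = La F Γ (a * b)
  hAf : ∀ a b, A.form (La F Γ a) (La F Γ b) = S.th a b
  act : M →ₗ[Γ] VV F G Γ →ₗ[Γ] M
  ha1 : ∀ (m : Gs F G) a, act (T.io m) (La F Γ a) = T.io ⟨(m : G) * a, mul_mem_Gs _ _⟩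
  ha2 : ∀ a, act T.uh (La F Γ a) = T.io ⟨u * a, mul_mem_Gs _ _⟩
  phi : VV F G Γ →ₗ[Γ] VV F G Γ →ₗ[Γ] M →ₗ[Γ] M
  hf1 : ∀ c x (m : Gs F G), phi (La F Γ c) (La F Γ x) (T.io m) =
      T.io ⟨pr m c x, pr_mem hG pr hpr m.2 c x⟩
  hf2 : ∀ c x, phi (La F Γ c) (La F Γ x) T.uh = XM S T x c

namespace SM

variable {hG hpr S T} {A : VPA Γ (VV F G Γ)} (B : SM hG hpr S T A)

/-- induction principle in a vector variable -/
lemma hind (P : VV F G Γ → Prop) (h : ∀ a, P (La F Γ a)) (h0 : P 0)
    (hadd : ∀ x y, P x → P y → P (x + y)) (hsmul : ∀ (c : Γ) x, P x → P (c • x)) (x : VV F G Γ) :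
    P x := La_induction (span_La F G Γ) (P := P) h h0 hadd hsmul x

lemma th_io (x y : G) (m : Gs F G) : S.th x y • T.io m =
    T.io ⟨thf pr x y m, thf_mem hG pr hpr m.2 x y⟩ := by
  rw [← map_smul]
  congr 1
  exact Subtype.ext (S.th_smul x y m)

lemma io_ext {m m' : Gs F G} (h : (m : G) = m') : T.io m = T.io m' := congrArg _ (Subtype.ext h)

include B in
lemma o_id (x c y z : G) : (3 : Γ) * (S.th x c * S.th z y) - (3 : Γ) * (S.th x y * S.th z c) =
    S.th ((x * y) * c - (x * c) * y + (2 : F) • (x * (y * c))) z := by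
  have h1 := A.vp (La F Γ y) (La F Γ c) (La F Γ x)
  have h2 := A.vp (La F Γ c) (La F Γ y) (La F Γ x)
  have e : La F Γ ((x * y) * c - (x * c) * y + (2 : F) • (x * (y * c))) =
      (3 : Γ) • (S.th x c • La F Γ y) - (3 : Γ) • (S.th x y • La F Γ c) := by
    rw [sub_eq_add_neg, La_add, La_add, La_neg, La_smul S, map_ofNat]
    rw [B.hAm, B.hAm, B.hAm, B.hAm, B.hAf, B.hAf, B.hAf] at h1 h2
    rw [ac hG c y, mul_neg, La_neg, th_symm hG hpr S c y] at h2
    linear_combination (norm := module) h1 - h2
  have e2 := congrArg (fun v => A.form v (La F Γ z)) e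
  simp only [map_sub, map_smul, LinearMap.sub_apply, LinearMap.smul_apply, B.hAf,
    smul_eq_mul] at e2
  rw [e2, th_symm hG hpr S z y, th_symm hG hpr S z c]

lemma H1 (v z z' : VV F G Γ) (m : M) :
    B.phi v (A.mul z z') m = B.act (B.phi v z m) z' := by
  refine hind (fun v => B.phi v (A.mul z z') m = B.act (B.phi v z m) z') (fun c => ?_) (by simp)
    (fun p q hp hq => by simp only [map_add, LinearMap.add_apply, hp, hq])
    (fun r p hp => by simp only [map_smul, LinearMap.smul_apply, hp]) v
  refine hind (fun z => B.phi (La F Γ c) (A.mul z z') m = B.act (B.phi (La F Γ c) z m) z')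
    (fun x => ?_) (by simp)
    (fun p q hp hq => by simp only [map_add, LinearMap.add_apply, hp, hq])
    (fun r p hp => by simp only [map_smul, LinearMap.smul_apply, hp]) z
  refine hind (fun z' => B.phi (La F Γ c) (A.mul (La F Γ x) z') m =
    B.act (B.phi (La F Γ c) (La F Γ x) m) z') (fun y => ?_) (by simp)
    (fun p q hp hq => by simp only [map_add, LinearMap.add_apply, hp, hq])
    (fun r p hp => by simp only [map_smul, LinearMap.smul_apply, hp]) z'
  refine MStr.induction S T (P := fun m => B.phi (La F Γ c) (A.mul (La F Γ x) (La F Γ y)) m =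
    B.act (B.phi (La F Γ c) (La F Γ x) m) (La F Γ y)) (fun m => ?_) ?_
    (fun p q hp hq => by simp only [map_add, LinearMap.add_apply, hp, hq])
    (fun r p hp => by simp only [map_smul, LinearMap.smul_apply, hp]) m
  · rw [B.hAm, B.hf1, B.hf1, B.ha1]
    apply io_ext
    exact prA hG pr hpr m.2 c x y
  · rw [B.hAm, B.hf2, B.hf2]
    unfold XM
    rw [map_add, map_smul, LinearMap.add_apply, LinearMap.smul_apply, B.ha1, B.ha2,
      rel_th hG hpr S T (mul_mem_Gs x y), th_io (hG := hG) (hpr := hpr), ← map_add, ← map_add]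
    apply io_ext
    exact id1 hG hpr u x y c

lemma H2 (v z v' z' : VV F G Γ) (m : M) :
    B.phi v' z' (B.phi v z m) = A.form z v' • B.phi v z' m := by
  refine hind (fun v => B.phi v' z' (B.phi v z m) = A.form z v' • B.phi v z' m)
    (fun c => ?_) (by simp)
    (fun p q hp hq => by simp only [map_add, LinearMap.add_apply, hp, hq, smul_add])
    (fun r p hp => by
      simp only [map_smul, LinearMap.smul_apply, hp]
      rw [smul_comm]) v
  refine hind (fun z => B.phi v' z' (B.phi (La F Γ c) z m) = A.form z v' • B.phi (La F Γ c) z' m)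
    (fun x => ?_) (by simp)
    (fun p q hp hq => by simp only [map_add, LinearMap.add_apply, hp, hq, add_smul])
    (fun r p hp => by
      simp only [map_smul, LinearMap.smul_apply, hp, smul_eq_mul, mul_smul]) z
  refine hind (fun v' => B.phi v' z' (B.phi (La F Γ c) (La F Γ x) m) =
    A.form (La F Γ x) v' • B.phi (La F Γ c) z' m)
    (fun y => ?_) (by simp)
    (fun p q hp hq => by simp only [map_add, LinearMap.add_apply, hp, hq, add_smul])
    (fun r p hp => by
      simp only [map_smul, LinearMap.smul_apply, hp, smul_eq_mul, mul_smul]) v'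
  refine hind (fun z' => B.phi (La F Γ y) z' (B.phi (La F Γ c) (La F Γ x) m) =
    A.form (La F Γ x) (La F Γ y) • B.phi (La F Γ c) z' m)
    (fun z => ?_) (by simp)
    (fun p q hp hq => by simp only [map_add, LinearMap.add_apply, hp, hq, smul_add])
    (fun r p hp => by
      simp only [map_smul, LinearMap.smul_apply, hp]
      rw [smul_comm]) z'
  refine MStr.induction S T (P := fun m => B.phi (La F Γ y) (La F Γ z)
    (B.phi (La F Γ c) (La F Γ x) m) =
    A.form (La F Γ x) (La F Γ y) • B.phi (La F Γ c) (La F Γ z) m) (fun m => ?_) ?_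
    (fun p q hp hq => by simp only [map_add, hp, hq, smul_add])
    (fun r p hp => by
      simp only [map_smul, hp]
      rw [smul_comm]) m
  · rw [B.hf1, B.hf1, B.hf1, B.hAf, th_io (hG := hG) (hpr := hpr)]
    apply io_ext
    exact pr_pr hG pr hpr m.2 c x y z
  · rw [B.hf2, B.hf2, B.hAf]
    unfold XM
    rw [map_add, map_smul, B.hf1, B.hf2]
    unfold XM
    have hoid := congrArg (fun γ => γ • T.uh) (B.o_id x c y z)
    simp only [sub_smul, mul_smul] at hoid
    have he : (x * y) * c - (x * c) * y + (2 : F) • (x * (y * c)) ∈ Gs F G :=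
      add_mem (sub_mem (mul_mem_Gs _ _) (mul_mem_Gs _ _)) (Submodule.smul_mem _ _ (mul_mem_Gs _ _))
    rw [rel_th hG hpr S T he] at hoid
    have h2 := id2 (F := F) hG hpr u x c y z
    have hi : (3 : Γ) • T.io ⟨pr (gg F u x c) y z, pr_mem hG pr hpr (gg_mem u x c) y z⟩ +
        (3 : Γ) • (S.th x c • T.io ⟨gg F u z y, gg_mem u z y⟩) -
        (3 : Γ) • (S.th x y • T.io ⟨gg F u z c, gg_mem u z c⟩) +
        T.io ⟨pr ((x * y) * c - (x * c) * y + (2 : F) • (x * (y * c))) z u,
          pr_mem hG pr hpr he z u⟩ = 0 := by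
      rw [th_io (hG := hG) (hpr := hpr), th_io (hG := hG) (hpr := hpr), ← map_smul, ← map_smul,
        ← map_smul, ← map_add, ← map_sub, ← map_add]
      rw [← map_zero T.io]
      apply io_ext
      rw [Submodule.coe_add, Submodule.coe_sub, Submodule.coe_add]
      have e3 : ∀ m : Gs F G, (((3 : Γ) • m : Gs F G) : G) = (3 : F) • (m : G) := by
        intro m
        rw [← Submodule.coe_smul, ← S.F_smul, map_ofNat]
      rw [e3, e3, e3]
      exact h2
    rw [← sub_eq_zero]
    have h3 : (3 : Γ) • (T.io ⟨pr (gg F u x c) y z, pr_mem hG pr hpr (gg_mem u x c) y z⟩ +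
        S.th x c • (T.io ⟨gg F u z y, gg_mem u z y⟩ + S.th z y • T.uh) -
        S.th x y • (T.io ⟨gg F u z c, gg_mem u z c⟩ + S.th z c • T.uh)) = 0 := by
      rw [← hi, ← hoid]
      module
    have e : (1 : Γ) = algebraMap F Γ (1 / 3) * 3 := by
      have : (3 : Γ) = algebraMap F Γ 3 := (map_ofNat (algebraMap F Γ) 3).symm
      rw [this, ← map_mul]
      norm_num
    rw [← one_smul Γ (_ - _), e, mul_smul, h3, smul_zero]

lemma E3 (m : M) (v v' z : VV F G Γ) :
    B.phi v' z (B.act m v) = B.phi (A.mul v v') z m := by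
  refine hind (fun v => B.phi v' z (B.act m v) = B.phi (A.mul v v') z m) (fun b => ?_) (by simp)
    (fun p q hp hq => by simp only [map_add, LinearMap.add_apply, hp, hq])
    (fun r p hp => by simp only [map_smul, LinearMap.smul_apply, hp]) v
  refine hind (fun v' => B.phi v' z (B.act m (La F Γ b)) = B.phi (A.mul (La F Γ b) v') z m)
    (fun c => ?_) (by simp)
    (fun p q hp hq => by simp only [map_add, LinearMap.add_apply, hp, hq])
    (fun r p hp => by simp only [map_smul, LinearMap.smul_apply, hp]) v'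
  refine hind (fun z => B.phi (La F Γ c) z (B.act m (La F Γ b)) =
    B.phi (A.mul (La F Γ b) (La F Γ c)) z m)
    (fun x => ?_) (by simp)
    (fun p q hp hq => by simp only [map_add, LinearMap.add_apply, hp, hq])
    (fun r p hp => by simp only [map_smul, LinearMap.smul_apply, hp]) z
  refine MStr.induction S T (P := fun m => B.phi (La F Γ c) (La F Γ x) (B.act m (La F Γ b)) =
    B.phi (A.mul (La F Γ b) (La F Γ c)) (La F Γ x) m) (fun m => ?_) ?_
    (fun p q hp hq => by simp only [map_add, LinearMap.add_apply, hp, hq])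
    (fun r p hp => by simp only [map_smul, LinearMap.smul_apply, hp]) m
  · rw [B.hAm, B.ha1, B.hf1, B.hf1]
    apply io_ext
    exact prC hG pr hpr m.2 b c x
  · rw [B.hAm, B.ha2, B.hf1, B.hf2]
    unfold XM
    rw [th_symm hG hpr S x, rel_th hG hpr S T (mul_mem_Gs b c), ← map_add]
    apply io_ext
    exact id3 hG hpr u b c x

lemma E4 (m : M) (x y : VV F G Γ) :
    B.act (B.act m x) y + B.act m (A.mul x y) + A.form x y • m =
      (2 : Γ) • B.phi y x m - B.phi x y m := by
  refine hind (fun x => B.act (B.act m x) y + B.act m (A.mul x y) + A.form x y • m =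
      (2 : Γ) • B.phi y x m - B.phi x y m) (fun a => ?_) (by simp)
    (fun p q hp hq => by
      simp only [map_add, LinearMap.add_apply]
      linear_combination (norm := module) hp + hq)
    (fun r p hp => by
      simp only [map_smul, LinearMap.smul_apply, smul_eq_mul]
      linear_combination (norm := module) r • hp) x
  refine hind (fun y => B.act (B.act m (La F Γ a)) y + B.act m (A.mul (La F Γ a) y) +
      A.form (La F Γ a) y • m =
      (2 : Γ) • B.phi y (La F Γ a) m - B.phi (La F Γ a) y m) (fun b => ?_) (by simp)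
    (fun p q hp hq => by
      simp only [map_add, LinearMap.add_apply]
      linear_combination (norm := module) hp + hq)
    (fun r p hp => by
      simp only [map_smul, LinearMap.smul_apply, smul_eq_mul]
      linear_combination (norm := module) r • hp) y
  refine MStr.induction S T (P := fun m => B.act (B.act m (La F Γ a)) (La F Γ b) +
      B.act m (A.mul (La F Γ a) (La F Γ b)) + A.form (La F Γ a) (La F Γ b) • m =
      (2 : Γ) • B.phi (La F Γ b) (La F Γ a) m - B.phi (La F Γ a) (La F Γ b) m)
    (fun m => ?_) ?_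
    (fun p q hp hq => by
      simp only [map_add, LinearMap.add_apply]
      linear_combination (norm := module) hp + hq)
    (fun r p hp => by
      simp only [map_smul, LinearMap.smul_apply]
      linear_combination (norm := module) r • hp) m
  · rw [B.hAm, B.hAf, B.ha1, B.ha1, B.ha1, B.hf1, B.hf1, th_io (hG := hG) (hpr := hpr),
      ← map_add, ← map_add, ← map_smul, ← map_sub]
    apply io_ext
    have e2 : ∀ m : Gs F G, (((2 : Γ) • m : Gs F G) : G) = (2 : F) • (m : G) := by
      intro m
      rw [← Submodule.coe_smul, ← S.F_smul, map_ofNat]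
    rw [Submodule.coe_add, Submodule.coe_add, Submodule.coe_sub, e2]
    show ((m : G) * a) * b + (m : G) * (a * b) + thf pr a b m = (2 : F) • pr m b a - pr m a b
    unfold thf
    module
  · rw [B.hAm, B.hAf, B.ha2, B.ha2, B.ha1, B.hf2, B.hf2]
    unfold XM
    have h4 : T.io ⟨(u * a) * b, mul_mem_Gs _ _⟩ + T.io ⟨u * (a * b), mul_mem_Gs _ _⟩ =
        (2 : Γ) • T.io ⟨gg F u a b, gg_mem u a b⟩ - T.io ⟨gg F u b a, gg_mem u b a⟩ := by
      rw [← map_add, ← map_smul, ← map_sub]
      apply io_ext
      have e2 : ∀ m : Gs F G, (((2 : Γ) • m : Gs F G) : G) = (2 : F) • (m : G) := by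
        intro m
        rw [← Submodule.coe_smul, ← S.F_smul, map_ofNat]
      rw [Submodule.coe_add, Submodule.coe_sub, e2]
      exact (id4 hG u a b).symm
    rw [th_symm hG hpr S b a]
    linear_combination (norm := module) h4

/-- the module of the ring extension -/
def HH : Submodule Γ (VV F G Γ →ₗ[Γ] M) where
  carrier := {h | (∀ v v', h (A.mul v v') = B.act (h v) v') ∧
    ∀ v v' z, B.phi v' z (h v) = A.form v v' • h z}
  add_mem' := by
    rintro h h' ⟨h1, h2⟩ ⟨h3, h4⟩
    refine ⟨fun v v' => ?_, fun v v' z => ?_⟩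
    · simp only [LinearMap.add_apply, map_add, h1, h3]
    · simp only [LinearMap.add_apply, map_add, h2, h4, smul_add]
  zero_mem' := by
    refine ⟨fun v v' => ?_, fun v v' z => ?_⟩
    · simp
    · simp
  smul_mem' := by
    rintro c h ⟨h1, h2⟩
    refine ⟨fun v v' => ?_, fun v v' z => ?_⟩
    · simp only [LinearMap.smul_apply, map_smul, h1]
    · simp only [LinearMap.smul_apply, map_smul, h2]
      rw [smul_comm]

/-- the extension data -/
noncomputable def ext : ExtData A M (HH B) where
  act := B.act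
  ev := (HH B).subtype
  form1 := LinearMap.mk₂ Γ (fun m v => (⟨(B.phi v).flip m, by
      refine ⟨fun z z' => ?_, fun z v' z' => ?_⟩
      · exact B.H1 v z z' m
      · exact B.H2 v z v' z' m⟩ : HH B))
    (fun m m' v => Subtype.ext (LinearMap.ext fun z => by simp))
    (fun c m v => Subtype.ext (LinearMap.ext fun z => by simp))
    (fun m v v' => Subtype.ext (LinearMap.ext fun z => by simp))
    (fun c m v => Subtype.ext (LinearMap.ext fun z => by simp))
  E1 := fun h v v' => h.2.1 v v'
  E2 := fun h v v' => Subtype.ext (LinearMap.ext fun z => h.2.2 v v' z)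
  E3 := fun m v v' => Subtype.ext (LinearMap.ext fun z => B.E3 m v v' z)
  E4 := fun m x y => B.E4 m x y

end SM

end

end Pool.Agent.Hhelper65.B4
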