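import Pool.Agent.Hhelper65.B4.Gam
import Pool.Agent.Hhelper65.B4.LX
import Pool.Agent.Hhelper65.PC.Sq

/-!
# Part B4, step 2: the vector product algebra
-/

set_option linter.unusedSectionVars false
set_option linter.unusedVariables false

namespace Pool.Agent.Hhelper65.B4

open Pool.Agent.Hhelper8

section

variable {F G : Type*} [Field F] [CharZero F] [NonUnitalNonAssocRing G] [Module F G]
  [IsScalarTower F G G] [SMulCommClass F G G]

/-- left multiplication -/
def Lf (F : Type*) {G : Type*} [Field F] [NonUnitalNonAssocRing G] [Module F G] (a : G) :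
    G → Gs F G := fun x => ⟨a * x, mul_mem_Gs a x⟩

/-- the module spanned by the left multiplications -/
def VV (F G Γ : Type*) [Field F] [NonUnitalNonAssocRing G] [Module F G] [CommRing Γ]
    [Module Γ (Gs F G)] : Submodule Γ (G → Gs F G) :=
  Submodule.span Γ (Set.range (Lf F))

/-- left multiplication as an element of `VV` -/
def La (F Γ : Type*) {G : Type*} [Field F] [NonUnitalNonAssocRing G] [Module F G] [CommRing Γ]
    [Module Γ (Gs F G)] (a : G) : VV F G Γ := ⟨Lf F a, Submodule.subset_span ⟨a, rfl⟩⟩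

lemma span_La (F G Γ : Type*) [Field F] [NonUnitalNonAssocRing G] [Module F G] [CommRing Γ]
    [Module Γ (Gs F G)] : Submodule.span Γ (Set.range (La F Γ (G := G))) = ⊤ := by
  rw [eq_top_iff]
  rintro ⟨v, hv⟩ -
  unfold VV at hv
  induction hv using Submodule.span_induction with
  | mem y hy =>
    obtain ⟨a, rfl⟩ := hy
    exact Submodule.subset_span ⟨a, rfl⟩
  | zero => exact zero_mem _
  | add x y hx' hy' hx hy => exact add_mem hx hy
  | smul c x hx' hx => exact Submodule.smul_mem _ c hx

variable (hG : VIds G) (pr : G →ₗ[F] G →ₗ[F] G →ₗ[F] G)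
  (hpr : ∀ a b c x : G, (6 : F) • pr (a * b) c x = P6 a b c x)
  {Γ : Type*} [CommRing Γ] [Algebra F Γ] [Module Γ (Gs F G)] (S : GS pr Γ)

section LXG

/-- a map `t : G → G` with values in the square which extends to `VV`. -/
def LXG (F Γ : Type*) {G : Type*} [Field F] [NonUnitalNonAssocRing G] [Module F G] [CommRing Γ]
    [Module Γ (Gs F G)] (t : G → G) : Prop :=
  ∃ t' : G → Gs F G, (∀ a, (t' a : G) = t a) ∧ LX Γ (La F Γ) t'

variable {pr}

lemma LXG.ev (s : G) : LXG F Γ (fun a => a * s) :=
  ⟨fun a => ⟨a * s, mul_mem_Gs a s⟩, fun a => rfl,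
    (LinearMap.proj (R := Γ) (φ := fun _ : G => Gs F G) s) ∘ₗ (VV F G Γ).subtype, fun a => rfl⟩

lemma LXG.congr {t t' : G → G} (h : LXG F Γ t) (he : ∀ a, t a = t' a) : LXG F Γ t' := by
  obtain ⟨t1, h1, h2⟩ := h
  exact ⟨t1, fun a => (h1 a).trans (he a), h2⟩

lemma LXG.add {t t' : G → G} (h : LXG F Γ t) (h' : LXG F Γ t') :
    LXG F Γ (fun a => t a + t' a) := by
  obtain ⟨t1, h1, h2⟩ := h
  obtain ⟨t2, h3, h4⟩ := h'
  exact ⟨fun a => t1 a + t2 a, fun a => by
    rw [Submodule.coe_add, h1, h3], h2.add h4⟩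

lemma LXG.neg {t : G → G} (h : LXG F Γ t) : LXG F Γ (fun a => -t a) := by
  obtain ⟨t1, h1, h2⟩ := h
  exact ⟨fun a => -t1 a, fun a => by rw [Submodule.coe_neg, h1], h2.neg⟩

lemma LXG.sub {t t' : G → G} (h : LXG F Γ t) (h' : LXG F Γ t') :
    LXG F Γ (fun a => t a - t' a) :=
  (h.add h'.neg).congr (fun a => (sub_eq_add_neg _ _).symm)

lemma LXG.zero : LXG F Γ (fun _ : G => (0 : G)) :=
  ⟨fun _ => 0, fun a => rfl, LX.zero⟩

include S in
lemma LXG.smul {t : G → G} (h : LXG F Γ t) (c : F) : LXG F Γ (fun a => c • t a) := by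
  obtain ⟨t1, h1, h2⟩ := h
  exact ⟨fun a => algebraMap F Γ c • t1 a, fun a => by
    show ((algebraMap F Γ c • t1 a : Gs F G) : G) = c • t a
    rw [S.F_smul, Submodule.coe_smul, h1], h2.smul _⟩

/-- right multiplication as a linear map -/
def Rm (x : G) : Gs F G →ₗ[Γ] Gs F G where
  toFun m := ⟨(m : G) * x, mul_mem_Gs _ _⟩
  map_add' m n := Subtype.ext (add_mul _ _ _)
  map_smul' γ m := Subtype.ext (S.mul_right γ m _ x rfl).symm

lemma Rm_apply (x : G) (m : Gs F G) : ((Rm S x m : Gs F G) : G) = (m : G) * x := rfl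

include S in
lemma LXG.mulR {t : G → G} (h : LXG F Γ t) (x : G) : LXG F Γ (fun a => t a * x) := by
  obtain ⟨t1, h1, h2⟩ := h
  exact ⟨fun a => Rm S x (t1 a), fun a => by rw [Rm_apply, h1], h2.comp _⟩

include S hG in
lemma LXG.mulL {t : G → G} (h : LXG F Γ t) (x : G) : LXG F Γ (fun a => x * t a) :=
  (LXG.mulR S h x).neg.congr (fun a => (ac hG _ _).symm)

include hG in
lemma LXG.ev' (s : G) : LXG F Γ (fun a => s * a) :=
  (LXG.ev s).neg.congr (fun a => (ac hG _ _).symm)

/-- the bracket as a linear map -/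
def Brm (c x : G) : Gs F G →ₗ[Γ] Gs F G where
  toFun m := ⟨pr m c x, pr_mem hG pr hpr m.2 c x⟩
  map_add' m n := Subtype.ext (by simp)
  map_smul' γ m := Subtype.ext (S.br γ m _ c x rfl).symm

lemma Brm_apply (c x : G) (m : Gs F G) : ((Brm hG hpr S c x m : Gs F G) : G) = pr m c x := rfl

include S in
lemma LXG.th {t : G → G} (h : LXG F Γ t) (x y : G) : LXG F Γ (fun a => thf pr x y (t a)) := by
  obtain ⟨t1, h1, h2⟩ := h
  exact ⟨fun a => S.th x y • t1 a, fun a => by rw [S.th_smul, h1], h2.smul _⟩

end LXG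

section

include hG hpr in
/-- idl in terms of `θ` -/
lemma thf_vp (x y z b : G) : ((z * x) * y + z * (x * y)) * b + thf pr x y (z * b)
    - (2 : F) • thf pr z y (x * b) + thf pr z x (y * b) = 0 := by
  have h := hG.idl z x y b
  apply cancel6 F
  rw [smul_zero]
  simp only [smul_add, smul_sub]
  rw [smul_comm (6 : F) (2 : F)]
  rw [six_thf pr hpr, six_thf pr hpr, six_thf pr hpr]
  rw [← h]
  simp only [← Int.cast_smul_eq_zsmul F]
  push_cast
  module

include hG hpr in
lemma three_thf (a b c d : G) : (3 : F) • thf pr a b (c * d) = (3 : F) • thf pr b c (a * d) +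
    (2 : F) • (((a * c) * b) * d) + ((a * b) * c) * d - (a * (b * c)) * d := by
  have h1 := thf_vp hG pr hpr a b c d
  have h2 := thf_vp hG pr hpr b c a d
  rw [thf_symm hG pr hpr (mul_mem_Gs a d) c b] at h1
  rw [thf_symm hG pr hpr (mul_mem_Gs b d) c a] at h1
  rw [ac hG c a, ac hG c (a * b)] at h1
  simp only [neg_mul, add_mul] at h1 h2 ⊢
  linear_combination (norm := module) (2 : F) • h1 + h2

include hG hpr S in
lemma LXG_th1 {m : G} (hm : m ∈ Gs F G) (b : G) : LXG F Γ (fun a => thf pr a b m) := by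
  refine Gs_induction (F := F) (P := fun m => LXG F Γ (fun a => thf pr a b m)) ?_ ?_ ?_ ?_ hm
  · intro c d
    have h1 : LXG F Γ (fun a => (3 : F) • thf pr b c (a * d) +
      (2 : F) • (((a * c) * b) * d) + ((a * b) * c) * d - (a * (b * c)) * d) := by
      refine LXG.sub (LXG.add (LXG.add ?_ ?_) ?_) ?_
      · exact LXG.smul S (LXG.th S (LXG.ev d) b c) _
      · exact LXG.smul S (LXG.mulR S (LXG.mulR S (LXG.ev c) b) d) _
      · exact LXG.mulR S (LXG.mulR S (LXG.ev b) c) d
      · exact LXG.mulR S (LXG.ev _) d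
    refine (LXG.smul S h1 (3 : F)⁻¹).congr (fun a => ?_)
    rw [← three_thf hG pr hpr, smul_smul, inv_mul_cancel₀ (by norm_num), one_smul]
  · exact LXG.zero.congr (fun a => (thf_zero pr a b).symm)
  · intro p q hp hq
    exact (hp.add hq).congr (fun a => (thf_add pr a b p q).symm)
  · intro r p hp
    exact (LXG.smul S hp r).congr (fun a => (thf_smul pr a b r p).symm)

variable {pr}

include S in
lemma th_ext {γ γ' : Γ} (h : ∀ m : Gs F G, γ • m = γ' • m) : γ = γ' := by
  rw [← sub_eq_zero]
  apply S.faithful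
  intro m
  rw [sub_smul, h, sub_self]

include hG hpr in
lemma th_symm (x y : G) : S.th x y = S.th y x := by
  apply th_ext S
  intro m
  apply Subtype.ext
  rw [S.th_smul, S.th_smul, thf_symm hG pr hpr m.2]

include hG in
lemma P6_swap (a b c u : G) : P6 a c b u = -P6 a b c u := by
  unfold P6 S4
  rw [ac hG c b]
  simp only [mul_neg]
  abel

include hG in
lemma P6_cyc (a b c u : G) : P6 b c a u = P6 a b c u := by
  rw [P6_swap hG b a c u, hG.idb a b c u, neg_neg]

include hG hpr in
lemma th_inv (a b c : G) : S.th (a * b) c = S.th a (b * c) := by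
  apply th_ext S
  intro m
  apply Subtype.ext
  rw [S.th_smul, S.th_smul, thf_symm hG pr hpr m.2 a, thf_prod hG pr hpr (mul_mem_Gs _ _) m.2,
    thf_prod hG pr hpr (mul_mem_Gs _ _) m.2, pr_eq hG pr hpr, pr_eq hG pr hpr, P6_cyc hG a b c]

/-- the faithful action as a linear map -/
def actj : Γ →ₗ[Γ] (Gs F G → Gs F G) where
  toFun γ m := γ • m
  map_add' γ γ' := by
    funext m
    exact add_smul _ _ _
  map_smul' γ γ' := by
    funext m
    exact mul_smul _ _ _

include hG hpr in
lemma LX_th (b : G) : LX Γ (La F Γ) (fun a => S.th a b) := by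
  apply LX.of_inj (span_La F G Γ) (actj (F := F) (G := G)) (fun γ γ' h => th_ext S (fun m => congrFun h m))
  apply LX.pi
  intro m
  obtain ⟨t, h1, h2⟩ := LXG_th1 hG pr hpr S m.2 b
  refine h2.congr (fun a => ?_)
  apply Subtype.ext
  rw [h1]
  exact (S.th_smul a b m).symm

include S in
lemma LX_La_mul (b : G) : LX Γ (La F Γ) (fun a => La F Γ (a * b)) := by
  apply LX.of_inj (span_La F G Γ) (VV F G Γ).subtype Subtype.val_injective
  apply LX.pi
  intro x
  obtain ⟨t, h1, h2⟩ := LXG.mulR S (LXG.ev (F := F) (Γ := Γ) b) x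
  exact h2.congr (fun a => Subtype.ext (h1 a))

lemma La_add (a b : G) : La F Γ (a + b) = La F Γ a + La F Γ b := by
  apply Subtype.ext
  funext x
  exact Subtype.ext (add_mul _ _ _)

lemma La_neg (a : G) : La F Γ (-a) = -La F Γ a := by
  apply Subtype.ext
  funext x
  exact Subtype.ext (neg_mul _ _)

lemma La_zero : La F Γ (0 : G) = 0 := by
  apply Subtype.ext
  funext x
  exact Subtype.ext (zero_mul _)

include S in
lemma La_smul (c : F) (a : G) : La F Γ (c • a) = algebraMap F Γ c • La F Γ a := by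
  apply Subtype.ext
  funext x
  apply Subtype.ext
  show (c • a) * x = ((algebraMap F Γ c • (Lf F a x) : Gs F G) : G)
  rw [S.F_smul, Submodule.coe_smul, smul_mul_assoc]
  rfl

include hG S in
lemma LX_La_mul' (a : G) : LX Γ (La F Γ) (fun b => La F Γ (a * b)) := by
  refine (LX_La_mul S a).neg.congr (fun b => ?_)
  rw [← La_neg, ← ac hG a b]

include hG hpr in
/-- **the vector product algebra** -/
theorem exists_VPA : ∃ A : VPA Γ (VV F G Γ), (∀ a b, A.mul (La F Γ a) (La F Γ b) = La F Γ (a * b)) ∧
    ∀ a b, A.form (La F Γ a) (La F Γ b) = S.th a b := by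
  obtain ⟨μ, hμ⟩ := LX.two (span_La F G Γ) (β := fun a b => La F Γ (a * b)) (LX_La_mul S)
    (LX_La_mul' hG S)
  obtain ⟨ν, hν⟩ := LX.two (span_La F G Γ) (β := fun a b => S.th a b) (LX_th hG hpr S)
    (fun a => (LX_th hG hpr S a).congr (fun b => th_symm hG hpr S b a))
  have hind := fun (P : VV F G Γ → Prop) => La_induction (span_La F G Γ) (P := P)
  have hanti : ∀ x y, μ x y = -μ y x := by
    intro x y
    refine hind (fun x => μ x y = -μ y x) (fun a => ?_) (by simp) (fun p q hp hq => ?_)
      (fun c p hp => ?_) x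
    · refine hind (fun y => μ (La F Γ a) y = -μ y (La F Γ a)) (fun b => ?_) (by simp)
        (fun p q hp hq => ?_) (fun c p hp => ?_) y
      · rw [hμ, hμ, ← La_neg, ← ac hG a b]
      · rw [map_add, map_add, LinearMap.add_apply, hp, hq]
        abel
      · rw [map_smul, map_smul, LinearMap.smul_apply, hp, smul_neg]
    · rw [map_add, map_add, LinearMap.add_apply, hp, hq]
      abel
    · rw [map_smul, map_smul, LinearMap.smul_apply, hp, smul_neg]
  refine ⟨⟨μ, ν, ?_, ?_, ?_, ?_⟩, hμ, hν⟩
  · intro x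
    have h1 := hanti x x
    have h2 : (2 : Γ) • μ x x = 0 := by
      rw [two_smul]
      nth_rewrite 1 [h1]
      exact neg_add_cancel _
    have e : (1 : Γ) = algebraMap F Γ (1 / 2) * 2 := by
      have : (2 : Γ) = algebraMap F Γ 2 := (map_ofNat (algebraMap F Γ) 2).symm
      rw [this, ← map_mul]
      norm_num
    rw [← one_smul Γ (μ x x), e, mul_smul, h2, smul_zero]
  · intro x y
    refine hind (fun x => ν x y = ν y x) (fun a => ?_) (by simp) (fun p q hp hq => ?_)
      (fun c p hp => ?_) x
    · refine hind (fun y => ν (La F Γ a) y = ν y (La F Γ a)) (fun b => ?_) (by simp)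
        (fun p q hp hq => ?_) (fun c p hp => ?_) y
      · rw [hν, hν, th_symm hG hpr]
      · rw [map_add, map_add, LinearMap.add_apply, hp, hq]
      · rw [map_smul, map_smul, LinearMap.smul_apply, hp]
    · rw [map_add, map_add, LinearMap.add_apply, hp, hq]
    · rw [map_smul, map_smul, LinearMap.smul_apply, hp]
  · intro x y z
    refine hind (fun x => ν (μ x y) z = ν x (μ y z)) (fun a => ?_) (by simp)
      (fun p q hp hq => by simp only [map_add, LinearMap.add_apply, hp, hq])
      (fun c p hp => by simp only [map_smul, LinearMap.smul_apply, hp]) x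
    refine hind (fun y => ν (μ (La F Γ a) y) z = ν (La F Γ a) (μ y z)) (fun b => ?_) (by simp)
      (fun p q hp hq => by simp only [map_add, LinearMap.add_apply, hp, hq])
      (fun c p hp => by simp only [map_smul, LinearMap.smul_apply, hp]) y
    refine hind (fun z => ν (μ (La F Γ a) (La F Γ b)) z = ν (La F Γ a) (μ (La F Γ b) z))
      (fun c => ?_) (by simp)
      (fun p q hp hq => by simp only [map_add, hp, hq])
      (fun c p hp => by simp only [map_smul, hp]) z
    rw [hμ, hμ, hν, hν, th_inv hG hpr]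
  · intro x y z
    refine hind (fun z => μ (μ z x) y + μ z (μ x y) + ν x y • z =
      (2 : Γ) • ν z y • x - ν z x • y) (fun c => ?_) (by simp)
      (fun p q hp hq => by
        simp only [map_add, LinearMap.add_apply]
        linear_combination (norm := module) hp + hq)
      (fun c p hp => by
        simp only [map_smul, LinearMap.smul_apply, smul_eq_mul]
        linear_combination (norm := module) c • hp) z
    refine hind (fun x => μ (μ (La F Γ c) x) y + μ (La F Γ c) (μ x y) + ν x y • (La F Γ c) =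
      (2 : Γ) • ν (La F Γ c) y • x - ν (La F Γ c) x • y) (fun a => ?_) (by simp)
      (fun p q hp hq => by
        simp only [map_add, LinearMap.add_apply]
        linear_combination (norm := module) hp + hq)
      (fun c p hp => by
        simp only [map_smul, LinearMap.smul_apply, smul_eq_mul]
        linear_combination (norm := module) c • hp) x
    refine hind (fun y => μ (μ (La F Γ c) (La F Γ a)) y + μ (La F Γ c) (μ (La F Γ a) y) +
      ν (La F Γ a) y • (La F Γ c) =
      (2 : Γ) • ν (La F Γ c) y • (La F Γ a) - ν (La F Γ c) (La F Γ a) • y) (fun b => ?_) (by simp)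
      (fun p q hp hq => by
        simp only [map_add]
        linear_combination (norm := module) hp + hq)
      (fun c p hp => by
        simp only [map_smul, smul_eq_mul]
        linear_combination (norm := module) c • hp) y
    rw [hμ, hμ, hμ, hμ, hν, hν, hν]
    apply Subtype.ext
    funext d
    apply Subtype.ext
    have h1 := thf_vp hG pr hpr a b c d
    have e1 : (((La F Γ (c * a * b) + La F Γ (c * (a * b)) + S.th a b • La F Γ c : VV F G Γ) :
        G → Gs F G) d : G) = ((c * a) * b) * d + (c * (a * b)) * d + thf pr a b (c * d) := by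
      rw [← S.th_smul a b ⟨c * d, mul_mem_Gs _ _⟩]
      rfl
    have e2 : (((((2 : Γ) • S.th c b • La F Γ a - S.th c a • La F Γ b : VV F G Γ)) :
        G → Gs F G) d : G) = (2 : F) • thf pr c b (a * d) - thf pr c a (b * d) := by
      rw [← S.th_smul c b ⟨a * d, mul_mem_Gs _ _⟩, ← S.th_smul c a ⟨b * d, mul_mem_Gs _ _⟩,
        ← Submodule.coe_smul, ← S.F_smul, map_ofNat]
      rfl
    rw [e1, e2]
    rw [add_mul] at h1
    linear_combination (norm := module) h1

end

end

end Pool.Agent.Hhelper65.B4
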