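import Pool.Agent.Hhelper8.Interface

/-!
# Part B4, step 0: identities
-/

set_option linter.unusedSectionVars false

namespace Pool.Agent.Hhelper65.B4

open Pool.Agent.Hhelper8

section

variable (F G : Type*) [Field F] [NonUnitalNonAssocRing G] [Module F G]

/-- the span of all products -/
def Gs : Submodule F G := Submodule.span F {w | ∃ a b : G, w = a * b}

variable {F G}

lemma mul_mem_Gs (a b : G) : a * b ∈ Gs F G := Submodule.subset_span ⟨a, b, rfl⟩

lemma Gs_induction {P : G → Prop} (h : ∀ a b, P (a * b)) (h0 : P 0)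
    (hadd : ∀ x y, P x → P y → P (x + y)) (hsmul : ∀ (c : F) x, P x → P (c • x)) {w : G}
    (hw : w ∈ Gs F G) : P w := by
  unfold Gs at hw
  induction hw using Submodule.span_induction with
  | mem y hy =>
    obtain ⟨a, b, rfl⟩ := hy
    exact h a b
  | zero => exact h0
  | add x y _ _ hx hy => exact hadd x y hx hy
  | smul c x _ hx => exact hsmul c x hx

end

section

variable {F G : Type*} [Field F] [CharZero F] [NonUnitalNonAssocRing G] [Module F G]
  [IsScalarTower F G G] [SMulCommClass F G G]

lemma cancel (F : Type*) {G : Type*} [Field F] [CharZero F] [AddCommGroup G] [Module F G] {n : ℕ}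
    (hn : n ≠ 0) {x y : G} (h : (n : F) • x = (n : F) • y) : x = y :=
  smul_right_injective G (Nat.cast_ne_zero.mpr hn : (n : F) ≠ 0) h

lemma cancel6 (F : Type*) {G : Type*} [Field F] [CharZero F] [AddCommGroup G] [Module F G]
    {x y : G} (h : (6 : F) • x = (6 : F) • y) : x = y := by
  apply cancel F (n := 6) (by norm_num)
  exact_mod_cast h

lemma ac (hG : VIds G) (x y : G) : x * y = -(y * x) := by
  have h := hG.mul_self (x + y)
  rw [add_mul, mul_add, mul_add, hG.mul_self, hG.mul_self, zero_add, add_zero] at h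
  exact eq_neg_of_add_eq_zero_left h

variable (hG : VIds G) (pr : G →ₗ[F] G →ₗ[F] G →ₗ[F] G)
  (hpr : ∀ a b c x : G, (6 : F) • pr (a * b) c x = P6 a b c x)

include hG hpr

lemma P6_mem (a b c x : G) : P6 a b c x ∈ Gs F G := by
  unfold P6 S4
  have h := fun a b : G => mul_mem_Gs (F := F) a b
  apply sub_mem
  · apply add_mem
    · exact add_mem (sub_mem (h _ _) (h _ _)) (add_mem (h _ _) (h _ _))
    · exact add_mem (sub_mem (h _ _) (h _ _)) (add_mem (h _ _) (h _ _))
  · exact add_mem (sub_mem (h _ _) (h _ _)) (add_mem (h _ _) (h _ _))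

lemma pr_eq (a b c x : G) : pr (a * b) c x = (6 : F)⁻¹ • P6 a b c x := by
  rw [← hpr, smul_smul, inv_mul_cancel₀ (by norm_num), one_smul]

lemma pr_mem {w : G} (hw : w ∈ Gs F G) (c x : G) : pr w c x ∈ Gs F G := by
  refine Gs_induction (F := F) (P := fun w => pr w c x ∈ Gs F G) ?_ ?_ ?_ ?_ hw
  · intro a b
    rw [pr_eq hG pr hpr]
    exact Submodule.smul_mem _ _ (P6_mem hG pr hpr a b c x)
  · rw [map_zero, LinearMap.zero_apply, LinearMap.zero_apply]
    exact zero_mem _
  · intro y z hy hz
    rw [map_add, LinearMap.add_apply, LinearMap.add_apply]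
    exact add_mem hy hz
  · intro r y hy
    rw [map_smul, LinearMap.smul_apply, LinearMap.smul_apply]
    exact Submodule.smul_mem _ _ hy

/-- (a) -/
lemma prA {w : G} (hw : w ∈ Gs F G) (t u v : G) : pr w t (u * v) = pr w t u * v := by
  refine Gs_induction (F := F) (P := fun w => pr w t (u * v) = pr w t u * v) ?_ ?_ ?_ ?_ hw
  · intro a b
    rw [pr_eq hG pr hpr, pr_eq hG pr hpr, hG.ida, smul_mul_assoc]
  · simp
  · intro x y hx hy
    simp only [map_add, LinearMap.add_apply, hx, hy, add_mul]
  · intro r x hx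
    simp only [map_smul, LinearMap.smul_apply, hx, smul_mul_assoc]

/-- (c) -/
lemma prC {w : G} (hw : w ∈ Gs F G) (c d u : G) : pr (w * c) d u = pr w (c * d) u := by
  refine Gs_induction (F := F) (P := fun w => pr (w * c) d u = pr w (c * d) u) ?_ ?_ ?_ ?_ hw
  · intro a b
    rw [pr_eq hG pr hpr, pr_eq hG pr hpr, hG.idc]
  · simp
  · intro x y hx hy
    simp only [map_add, LinearMap.add_apply, hx, hy, add_mul]
  · intro r x hx
    simp only [map_smul, LinearMap.smul_apply, hx, smul_mul_assoc]

/-- (F4) -/
lemma prF4 {w : G} (hw : w ∈ Gs F G) (c x : G) : (3 : F) • pr w c x - (3 : F) • pr w x c =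
    -((w * c) * x) + (w * x) * c - (2 : F) • (w * (c * x)) := by
  refine Gs_induction (F := F) (P := fun w => (3 : F) • pr w c x - (3 : F) • pr w x c =
    -((w * c) * x) + (w * x) * c - (2 : F) • (w * (c * x))) ?_ ?_ ?_ ?_ hw
  · intro a b
    apply cancel6 F
    rw [smul_sub, smul_comm (6 : F), smul_comm (6 : F), hpr, hpr]
    unfold P6 S4
    rw [ac hG x c]
    simp only [mul_neg]
    module
  · simp
  · intro p q hp hq
    simp only [map_add, LinearMap.add_apply, add_mul, smul_add]
    linear_combination (norm := module) hp + hq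
  · intro r p hp
    simp only [map_smul, LinearMap.smul_apply, smul_mul_assoc]
    linear_combination (norm := module) r • hp

omit [CharZero F] hG hpr in
/-- the map `θ(x,y)` -/
def thf (x y w : G) : G := -((w * x) * y) - w * (x * y) + (2 : F) • pr w y x - pr w x y

omit [CharZero F] hG hpr in
lemma thf_add (x y w w' : G) : thf pr x y (w + w') = thf pr x y w + thf pr x y w' := by
  unfold thf
  simp only [map_add, LinearMap.add_apply, add_mul, smul_add]
  module

omit [CharZero F] hG hpr in
lemma thf_smul (x y : G) (r : F) (w : G) : thf pr x y (r • w) = r • thf pr x y w := by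
  unfold thf
  simp only [map_smul, LinearMap.smul_apply, smul_mul_assoc]
  module

omit [CharZero F] hG hpr in
lemma thf_zero (x y : G) : thf pr x y (0 : G) = 0 := by
  unfold thf
  simp

omit [CharZero F] hG in
lemma six_thf (x y a b : G) : (6 : F) • thf pr x y (a * b) = th6 x y a b := by
  unfold thf th6
  rw [smul_sub, smul_add, smul_comm (6 : F) (2 : F), hpr, hpr, smul_sub]
  module

lemma thf_mem {w : G} (hw : w ∈ Gs F G) (x y : G) : thf pr x y w ∈ Gs F G := by
  unfold thf
  exact sub_mem (add_mem (sub_mem (neg_mem (mul_mem_Gs _ _)) (mul_mem_Gs _ _))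
    (Submodule.smul_mem _ _ (pr_mem hG pr hpr hw _ _))) (pr_mem hG pr hpr hw _ _)

/-- symmetry of `θ` -/
lemma thf_symm {w : G} (hw : w ∈ Gs F G) (x y : G) : thf pr x y w = thf pr y x w := by
  have h := prF4 hG pr hpr hw y x
  unfold thf
  rw [ac hG x y] 
  rw [mul_neg]
  linear_combination (norm := module) h

/-- (f) -/
lemma thf_mul {w : G} (hw : w ∈ Gs F G) (x y z : G) : thf pr x y (w * z) = thf pr x y w * z := by
  refine Gs_induction (F := F) (P := fun w => thf pr x y (w * z) = thf pr x y w * z)
    ?_ ?_ ?_ ?_ hw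
  · intro a b
    apply cancel6 F
    rw [six_thf pr hpr, ← smul_mul_assoc, six_thf pr hpr, hG.idf]
  · simp [thf_zero]
  · intro p q hp hq
    rw [add_mul, thf_add, thf_add, add_mul, hp, hq]
  · intro r p hp
    rw [smul_mul_assoc, thf_smul, thf_smul, smul_mul_assoc, hp]

/-- (k) -/
lemma thf_prod {w m : G} (hw : w ∈ Gs F G) (hm : m ∈ Gs F G) (c : G) :
    thf pr w c m = pr w c m := by
  refine Gs_induction (F := F) (P := fun m => thf pr w c m = pr w c m) ?_ ?_ ?_ ?_ hm
  · intro a b
    refine Gs_induction (F := F) (P := fun w => thf pr w c (a * b) = pr w c (a * b))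
      ?_ ?_ ?_ ?_ hw
    · intro d e
      apply cancel6 F
      rw [six_thf pr hpr, hpr, hG.idk]
    · unfold thf
      simp
    · intro p q hp hq
      have e : thf pr (p + q) c (a * b) = thf pr p c (a * b) + thf pr q c (a * b) := by
        unfold thf
        simp only [mul_add, add_mul, map_add, LinearMap.add_apply, smul_add]
        module
      rw [e, hp, hq, map_add, LinearMap.add_apply, LinearMap.add_apply]
    · intro r p hp
      have e : thf pr (r • p) c (a * b) = r • thf pr p c (a * b) := by
        unfold thf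
        simp only [mul_smul_comm, smul_mul_assoc, map_smul, LinearMap.smul_apply]
        module
      rw [e, hp, map_smul, LinearMap.smul_apply, LinearMap.smul_apply]
  · simp [thf_zero]
  · intro p q hp hq
    rw [thf_add, hp, hq, map_add]
  · intro r p hp
    rw [thf_smul, hp, map_smul]

lemma six_pr_S4 (a b c u y z : G) : (6 : F) • pr (S4 a b c u) y z = brS4 a b c u y z := by
  unfold S4 brS4
  simp only [map_add, map_sub, LinearMap.add_apply, LinearMap.sub_apply, smul_add, smul_sub, hpr]
  module

lemma six_pr_P6 (a b c u y z : G) : (6 : F) • pr (P6 a b c u) y z = brP6 a b c u y z := by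
  unfold P6 brP6
  simp only [map_add, map_sub, LinearMap.add_apply, LinearMap.sub_apply, smul_add, smul_sub,
    six_pr_S4 hG pr hpr]

/-- (h0) -/
lemma pr_pr_symm {w : G} (hw : w ∈ Gs F G) (t x y z : G) :
    pr (pr w t x) y z = pr (pr w t y) x z := by
  refine Gs_induction (F := F) (P := fun w => pr (pr w t x) y z = pr (pr w t y) x z)
    ?_ ?_ ?_ ?_ hw
  · intro a b
    have e : ∀ x y, (36 : F) • pr (pr (a * b) t x) y z = brP6 a b t x y z := by
      intro x y
      have e1 : (36 : F) • pr (pr (a * b) t x) y z = (6 : F) • pr ((6 : F) • pr (a * b) t x) y z := by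
        rw [map_smul, LinearMap.smul_apply, LinearMap.smul_apply, smul_smul]
        norm_num
      rw [e1, hpr, six_pr_P6 hG pr hpr]
    apply cancel F (n := 36) (by norm_num)
    push_cast
    rw [e, e, hG.idh0]
  · simp
  · intro p q hp hq
    simp only [map_add, LinearMap.add_apply, hp, hq]
  · intro r p hp
    simp only [map_smul, LinearMap.smul_apply, hp]

/-- (h) -/
lemma pr_pr {w : G} (hw : w ∈ Gs F G) (t x y z : G) :
    pr (pr w t x) y z = thf pr x y (pr w t z) := by
  have hs : ∀ a b, pr w t (a * b) = pr w t a * b := fun a b => prA hG pr hpr hw t a b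
  have hq : ∀ x y z, pr (pr w t x) y z = pr (pr w t y) x z := fun x y z =>
    pr_pr_symm hG pr hpr hw t x y z
  have h4 : ∀ x z y, (3 : F) • pr (pr w t x) z y - (3 : F) • pr (pr w t x) y z =
      -(pr w t ((x * z) * y)) + pr w t ((x * y) * z) - (2 : F) • pr w t (x * (z * y)) := by
    intro x z y
    rw [prF4 hG pr hpr (pr_mem hG pr hpr hw t x), hs, hs, hs, hs, hs]
  have h4a := h4 x z y
  have h4b := h4 y z x
  apply cancel F (n := 3) (by norm_num)
  unfold thf
  rw [← hs, ← hs, ← hs]
  rw [hq z y x, hq z x y]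
  rw [hq y x z] at h4b
  have j1 : (x * z) * y = -((z * x) * y) := by rw [ac hG x z, neg_mul]
  have j2 : x * (z * y) = (y * z) * x := by rw [ac hG x, ac hG z y, neg_mul, neg_neg]
  have j3 : (y * x) * z = -((x * y) * z) := by rw [ac hG y x, neg_mul]
  have j4 : y * (z * x) = -((z * x) * y) := ac hG _ _
  have j5 : z * (x * y) = -((x * y) * z) := ac hG _ _
  rw [j1, j2] at h4a
  rw [j3, j4] at h4b
  rw [j5]
  simp only [map_neg] at h4a h4b ⊢
  push_cast
  linear_combination (norm := module) h4a - (2 : F) • h4b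

/-- (g) -/
lemma thf_pr {w : G} (hw : w ∈ Gs F G) (x y t z : G) :
    thf pr x y (pr w t z) = pr (thf pr x y w) t z := by
  set Q : G → G → G → G := fun x y t => pr (pr w t x) y z with hQ
  have hsymm : ∀ x y t, Q x y t = Q y x t := fun x y t => pr_pr_symm hG pr hpr hw t x y z
  have hc : ∀ c d, pr (w * c) d z = pr w (c * d) z := fun c d => prC hG pr hpr hw c d z
  have hdiff : ∀ x y t, (3 : F) • Q x y t - (3 : F) • Q t y x =
      -pr w (t * (x * y)) z + pr w (x * (t * y)) z - (2 : F) • pr w ((t * x) * y) z := by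
    intro x y t
    have h := congrArg (fun s => pr s y z) (prF4 hG pr hpr hw t x)
    simp only [map_add, map_sub, map_neg, map_smul, LinearMap.add_apply, LinearMap.sub_apply,
      LinearMap.neg_apply, LinearMap.smul_apply] at h
    rw [prC hG pr hpr (mul_mem_Gs _ _), prC hG pr hpr (mul_mem_Gs _ _), hc, hc, hc] at h
    exact h
  have e1 : pr (thf pr x y w) t z = -pr w (x * (y * t)) z - pr w ((x * y) * t) z +
      (2 : F) • Q x t y - Q y t x := by
    unfold thf
    simp only [map_add, map_sub, map_neg, map_smul, LinearMap.add_apply, LinearMap.sub_apply,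
      LinearMap.neg_apply, LinearMap.smul_apply]
    rw [prC hG pr hpr (mul_mem_Gs _ _), hc, hc]
  rw [← pr_pr hG pr hpr hw, e1]
  have d1 := hdiff y x t
  have d2 := hdiff x t y
  rw [hsymm y x t, hsymm t x y] at d1
  have j1 : t * (y * x) = (x * y) * t := by rw [ac hG t, ac hG y x, neg_mul, neg_neg]
  have j2 : y * (t * x) = -(y * (x * t)) := by rw [ac hG t x, mul_neg]
  have j3 : (t * y) * x = x * (y * t) := by rw [ac hG _ x, ac hG t y, mul_neg, neg_neg]
  have j4 : x * (y * t) = x * (y * t) := rfl
  have j5 : (y * x) * t = -((x * y) * t) := by rw [ac hG y x, neg_mul]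
  rw [j1, j2, j3] at d1
  rw [j5] at d2
  simp only [map_neg, LinearMap.neg_apply] at d1 d2
  apply cancel F (n := 3) (by norm_num)
  show (3 : F) • Q x y t = _
  push_cast
  linear_combination (norm := module) d1 - d2

end

end Pool.Agent.Hhelper65.B4
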